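import Pool.Agent.Helper52.Chess.Wt

/-!
# Beta integrals and the chord integrals as polynomials
-/

set_option autoImplicit false

namespace Pool.Agent.Helper52.Chess

open Finset MeasureTheory

lemma beta_fac (k : ℕ) : ∀ m : ℕ, ∫ t in (0 : ℝ)..1, t ^ m * (1 - t) ^ k =
    (m.factorial : ℝ) * k.factorial / (m + k + 1).factorial := by
  induction k with
  | zero =>
    intro m
    simp only [pow_zero, mul_one, integral_pow, Nat.factorial_zero, Nat.cast_one, add_zero]
    rw [Nat.factorial_succ]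
    have : (m.factorial : ℝ) ≠ 0 := by positivity
    push_cast
    field_simp
    simp
  | succ k ih =>
    intro m
    have h : ∀ t : ℝ, t ^ m * (1 - t) ^ (k + 1) = t ^ m * (1 - t) ^ k - t ^ (m + 1) * (1 - t) ^ k := by
      intro t; ring
    simp_rw [h]
    rw [intervalIntegral.integral_sub, ih m, ih (m + 1)]
    · have e1 : m + 1 + k + 1 = (m + k + 1) + 1 := by ring
      have e2 : m + (k + 1) + 1 = (m + k + 1) + 1 := by ring
      rw [e1, e2, Nat.factorial_succ (m + k + 1), Nat.factorial_succ m, Nat.factorial_succ k]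
      have : ((m + k + 1).factorial : ℝ) ≠ 0 := by positivity
      push_cast
      field_simp
      ring
    · exact Continuous.intervalIntegrable (by fun_prop) _ _
    · exact Continuous.intervalIntegrable (by fun_prop) _ _

lemma beta_choose (m k : ℕ) : ∫ t in (0 : ℝ)..1, t ^ m * (1 - t) ^ k =
    1 / (((m + k : ℕ) + 1 : ℝ) * ((m + k).choose m : ℝ)) := by
  rw [beta_fac, Nat.choose_symm_add, Nat.add_choose, Nat.factorial_succ]
  rw [Nat.cast_div (Nat.factorial_mul_factorial_dvd_factorial_add m k) (by positivity)]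
  have h1 : (m.factorial : ℝ) ≠ 0 := by positivity
  have h2 : (k.factorial : ℝ) ≠ 0 := by positivity
  have h3 : ((m + k).factorial : ℝ) ≠ 0 := by positivity
  push_cast
  field_simp

/-- the integral of a product of powers of linear functions -/
lemma BI (p q : ℕ) (x0 x1 y0 y1 : ℝ) :
    ∫ t in (0 : ℝ)..1, ((1 - t) * x0 + t * x1) ^ p * ((1 - t) * y0 + t * y1) ^ q =
      ∑ k ∈ range (p + 1), ∑ l ∈ range (q + 1), ((p.choose k : ℝ) * (x1 ^ k * x0 ^ (p - k))) *
        ((q.choose l : ℝ) * (y1 ^ l * y0 ^ (q - l))) *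
        (1 / (((p + q : ℕ) + 1 : ℝ) * ((p + q).choose (k + l) : ℝ))) := by
  have h : ∀ t : ℝ, ((1 - t) * x0 + t * x1) ^ p * ((1 - t) * y0 + t * y1) ^ q =
      ∑ k ∈ range (p + 1), ∑ l ∈ range (q + 1), ((p.choose k : ℝ) * (x1 ^ k * x0 ^ (p - k))) *
        ((q.choose l : ℝ) * (y1 ^ l * y0 ^ (q - l))) *
        (t ^ (k + l) * (1 - t) ^ ((p - k) + (q - l))) := by
    intro t
    rw [add_comm ((1 - t) * x0), add_comm ((1 - t) * y0), add_pow, add_pow, Finset.sum_mul_sum]
    refine Finset.sum_congr rfl fun k _ => Finset.sum_congr rfl fun l _ => ?_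
    rw [mul_pow, mul_pow, mul_pow, mul_pow, pow_add, pow_add]
    ring
  simp_rw [h]
  rw [intervalIntegral.integral_finsetSum]
  · refine Finset.sum_congr rfl fun k hk => ?_
    rw [intervalIntegral.integral_finsetSum]
    · refine Finset.sum_congr rfl fun l hl => ?_
      rw [intervalIntegral.integral_const_mul, beta_choose]
      have hk' : k ≤ p := Nat.lt_succ_iff.1 (Finset.mem_range.1 hk)
      have hl' : l ≤ q := Nat.lt_succ_iff.1 (Finset.mem_range.1 hl)
      have e : k + l + (p - k + (q - l)) = p + q := by omega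
      rw [e]
    · intro l _
      exact Continuous.intervalIntegrable (by fun_prop) _ _
  · intro k _
    exact Continuous.intervalIntegrable (by fun_prop) _ _

/-- `lcm (1, ..., 41)` -/
def Lam : ℕ := 219060189739591200

/-- `Lam` times the Beta integral -/
def w (N m : ℕ) : ℕ := Lam / ((N + 1) * N.choose m)

lemma w_spec : ∀ N < 41, ∀ m < N + 1, (N + 1) * N.choose m * w N m = Lam := by decide +kernel

lemma w_real {N m : ℕ} (hN : N < 41) (hm : m < N + 1) :
    (Lam : ℝ) * (1 / (((N : ℕ) + 1 : ℝ) * (N.choose m : ℝ))) = (w N m : ℝ) := by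
  have h := w_spec N hN m hm
  have h1 : (((N : ℝ) + 1) * (N.choose m : ℝ)) * (w N m : ℝ) = Lam := by exact_mod_cast h
  have h2 : ((N : ℝ) + 1) ≠ 0 := by positivity
  have h3 : (N.choose m : ℝ) ≠ 0 := by
    have : 0 < N.choose m := Nat.choose_pos (by omega)
    positivity
  rw [← h1]
  field_simp

/-- the sum of `f 0, ..., f (n-1)` (kernel friendly) -/
noncomputable def sm (n : ℕ) (f : ℕ → ℤ) : ℤ := Nat.rec (motive := fun _ => ℤ) 0 (fun k ih => ih + f k) n

lemma sm_eq (n : ℕ) (f : ℕ → ℤ) : sm n f = ∑ i ∈ range n, f i := by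
  induction n with
  | zero => rfl
  | succ n ih => rw [Finset.sum_range_succ, ← ih]; rfl

/-- coefficients of the left-right chord integral -/
noncomputable def r1 (i j : ℕ) : ℤ :=
  if (i + j) % 2 = 0 ∧ i + j ≤ 20 then
    ((i + j).choose j : ℤ) * sm 11 (fun P => cc P ((i + j) / 2) *
      sm (2 * P + 1) (fun k => (-1) ^ k * ((2 * P).choose k * w (2 * P + (i + j)) (k + j) : ℕ)))
  else 0

/-- coefficients of the left-top chord integral -/
noncomputable def r2 (i j : ℕ) : ℤ :=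
  (-1) ^ j * sm 11 (fun P => sm 11 (fun Q => cc P Q *
    ((2 * P).choose j * (2 * Q).choose i * w (2 * P + 2 * Q) (j + (2 * Q - i)) : ℕ)))

lemma F_chord (x0 x1 y0 y1 : ℝ) :
    (Lam : ℝ) * ∫ t in (0 : ℝ)..1, F ((1 - t) * x0 + t * x1) ((1 - t) * y0 + t * y1) =
      ∑ P ∈ range 11, ∑ Q ∈ range 11, ∑ k ∈ range (2 * P + 1), ∑ l ∈ range (2 * Q + 1),
        (cc P Q : ℝ) * (((2 * P).choose k : ℝ) * (x1 ^ k * x0 ^ (2 * P - k))) *
        (((2 * Q).choose l : ℝ) * (y1 ^ l * y0 ^ (2 * Q - l))) * (w (2 * P + 2 * Q) (k + l) : ℝ) := by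
  unfold F
  rw [intervalIntegral.integral_finsetSum, Finset.mul_sum]
  · refine Finset.sum_congr rfl fun P hP => ?_
    rw [intervalIntegral.integral_finsetSum, Finset.mul_sum]
    · refine Finset.sum_congr rfl fun Q hQ => ?_
      simp_rw [mul_assoc (cc P Q : ℝ)]
      rw [intervalIntegral.integral_const_mul, BI, Finset.mul_sum, Finset.mul_sum]
      refine Finset.sum_congr rfl fun k hk => ?_
      rw [Finset.mul_sum, Finset.mul_sum]
      refine Finset.sum_congr rfl fun l hl => ?_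
      rw [Finset.mem_range] at hP hQ hk hl
      rw [← w_real (N := 2 * P + 2 * Q) (m := k + l) (by omega) (by omega)]
      ring
    · intro Q _
      exact Continuous.intervalIntegrable (by fun_prop) _ _
  · intro P _
    exact Continuous.intervalIntegrable (by fun_prop) _ _

lemma sum_tri {M : Type*} [AddCommMonoid M] (h : ℕ → ℕ → ℕ → M) :
    ∑ Q ∈ range 11, ∑ l ∈ range (2 * Q + 1), h Q (2 * Q - l) l =
      ∑ i ∈ range 21, ∑ j ∈ range 21, if (i + j) % 2 = 0 ∧ i + j ≤ 20 then h ((i + j) / 2) i j else 0 := by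
  rw [Finset.sum_sigma', Finset.sum_sigma', ← Finset.sum_filter]
  refine Finset.sum_bij' (fun x _ => ⟨2 * x.1 - x.2, x.2⟩) (fun x _ => ⟨(x.1 + x.2) / 2, x.2⟩) ?_ ?_ ?_ ?_ ?_
  · rintro ⟨Q, l⟩ hx
    simp only [Finset.mem_sigma, Finset.mem_range, Finset.mem_filter] at hx ⊢
    omega
  · rintro ⟨i, j⟩ hx
    simp only [Finset.mem_sigma, Finset.mem_range, Finset.mem_filter] at hx ⊢
    omega
  · rintro ⟨Q, l⟩ hx
    simp only [Finset.mem_sigma, Finset.mem_range, Finset.mem_filter] at hx ⊢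
    have : (2 * Q - l + l) / 2 = Q := by omega
    rw [this]
  · rintro ⟨i, j⟩ hx
    simp only [Finset.mem_sigma, Finset.mem_range, Finset.mem_filter] at hx ⊢
    have : 2 * ((i + j) / 2) - j = i := by omega
    rw [this]
  · rintro ⟨Q, l⟩ hx
    simp only [Finset.mem_sigma, Finset.mem_range, Finset.mem_filter] at hx ⊢
    have : (2 * Q - l + l) / 2 = Q := by omega
    rw [this]

theorem chord1 (a b : ℝ) :
    (Lam : ℝ) * ∫ t in (0 : ℝ)..1, F (-1 + 2 * t) ((1 - t) * a + t * b) =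
      ∑ i ∈ range 21, ∑ j ∈ range 21, (r1 i j : ℝ) * a ^ i * b ^ j := by
  have e : ∀ t : ℝ, -1 + 2 * t = (1 - t) * (-1) + t * 1 := by intro t; ring
  simp_rw [e]
  rw [F_chord, Finset.sum_comm]
  have h1 : ∀ Q ∈ range 11, ∑ P ∈ range 11, ∑ k ∈ range (2 * P + 1), ∑ l ∈ range (2 * Q + 1),
        (cc P Q : ℝ) * (((2 * P).choose k : ℝ) * ((1 : ℝ) ^ k * (-1) ^ (2 * P - k))) *
        (((2 * Q).choose l : ℝ) * (b ^ l * a ^ (2 * Q - l))) * (w (2 * P + 2 * Q) (k + l) : ℝ) =
      ∑ l ∈ range (2 * Q + 1), (fun Q i l => ∑ P ∈ range 11, ∑ k ∈ range (2 * P + 1),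
        (cc P Q : ℝ) * (((2 * P).choose k : ℝ) * ((1 : ℝ) ^ k * (-1) ^ (2 * P - k))) *
        (((2 * Q).choose l : ℝ) * (b ^ l * a ^ i)) * (w (2 * P + 2 * Q) (k + l) : ℝ))
          Q (2 * Q - l) l := by
    intro Q _
    rw [Finset.sum_comm]
    have : ∀ P ∈ range 11, ∑ k ∈ range (2 * P + 1), ∑ l ∈ range (2 * Q + 1),
        (cc P Q : ℝ) * (((2 * P).choose k : ℝ) * ((1 : ℝ) ^ k * (-1) ^ (2 * P - k))) *
        (((2 * Q).choose l : ℝ) * (b ^ l * a ^ (2 * Q - l))) * (w (2 * P + 2 * Q) (k + l) : ℝ) =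
        ∑ l ∈ range (2 * Q + 1), ∑ k ∈ range (2 * P + 1),
        (cc P Q : ℝ) * (((2 * P).choose k : ℝ) * ((1 : ℝ) ^ k * (-1) ^ (2 * P - k))) *
        (((2 * Q).choose l : ℝ) * (b ^ l * a ^ (2 * Q - l))) * (w (2 * P + 2 * Q) (k + l) : ℝ) :=
      fun P _ => Finset.sum_comm
    rw [Finset.sum_congr rfl this]
  rw [Finset.sum_congr rfl h1]
  refine (sum_tri (fun Q i l => ∑ P ∈ range 11, ∑ k ∈ range (2 * P + 1),
        (cc P Q : ℝ) * (((2 * P).choose k : ℝ) * ((1 : ℝ) ^ k * (-1) ^ (2 * P - k))) *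
        (((2 * Q).choose l : ℝ) * (b ^ l * a ^ i)) * (w (2 * P + 2 * Q) (k + l) : ℝ))).trans ?_
  refine Finset.sum_congr rfl fun i hi => Finset.sum_congr rfl fun j hj => ?_
  unfold r1
  split_ifs with h
  · have e2 : 2 * ((i + j) / 2) = i + j := by omega
    simp only [e2, sm_eq]
    push_cast
    rw [Finset.mul_sum, Finset.sum_mul, Finset.sum_mul]
    refine Finset.sum_congr rfl fun P _ => ?_
    rw [Finset.mul_sum, Finset.mul_sum, Finset.sum_mul, Finset.sum_mul]
    refine Finset.sum_congr rfl fun k hk => ?_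
    rw [Finset.mem_range] at hk
    have e3 : (-1 : ℝ) ^ (2 * P - k) = (-1) ^ k := by
      have : (-1 : ℝ) ^ (2 * P - k) * (-1) ^ k = 1 := by
        rw [← pow_add]
        have : 2 * P - k + k = 2 * P := by omega
        rw [this, pow_mul]; simp
      have h2 : (-1 : ℝ) ^ k * (-1) ^ k = 1 := by
        rw [← pow_add, ← two_mul, pow_mul]; simp
      have h3 : ((-1 : ℝ) ^ (2 * P - k) - (-1) ^ k) * (-1) ^ k = 0 := by
        rw [sub_mul, this, h2, sub_self]
      have h4 : (-1 : ℝ) ^ k ≠ 0 := pow_ne_zero _ (by norm_num)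
      exact sub_eq_zero.1 ((mul_eq_zero.1 h3).resolve_right h4)
    rw [e3, one_pow]
    ring
  · simp

lemma sum_ext0 {M : Type*} [AddCommMonoid M] {n m : ℕ} (hnm : n ≤ m) (f : ℕ → M)
    (hf : ∀ i, n ≤ i → f i = 0) : ∑ i ∈ range n, f i = ∑ i ∈ range m, f i := by
  refine Finset.sum_subset (fun i hi => ?_) (fun i _ hi => ?_)
  · rw [Finset.mem_range] at hi ⊢; omega
  · rw [Finset.mem_range, not_lt] at hi; exact hf i hi

theorem chord2 (a b : ℝ) :
    (Lam : ℝ) * ∫ t in (0 : ℝ)..1, F (-(1 - t) + t * b) ((1 - t) * a + t) =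
      ∑ i ∈ range 21, ∑ j ∈ range 21, (r2 i j : ℝ) * a ^ i * b ^ j := by
  have e : ∀ t : ℝ, -(1 - t) + t * b = (1 - t) * (-1) + t * b := by intro t; ring
  have e' : ∀ t : ℝ, (1 - t) * a + t = (1 - t) * a + t * 1 := by intro t; ring
  simp_rw [e, e']
  rw [F_chord]
  -- the inner sums as sums over `range 21`
  have h1 : ∀ P ∈ range 11, ∀ Q ∈ range 11,
      ∑ k ∈ range (2 * P + 1), ∑ l ∈ range (2 * Q + 1),
        (cc P Q : ℝ) * (((2 * P).choose k : ℝ) * (b ^ k * (-1 : ℝ) ^ (2 * P - k))) *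
        (((2 * Q).choose l : ℝ) * ((1 : ℝ) ^ l * a ^ (2 * Q - l))) * (w (2 * P + 2 * Q) (k + l) : ℝ) =
      ∑ i ∈ range 21, ∑ j ∈ range 21, (-1 : ℝ) ^ j * ((cc P Q : ℝ) *
        (((2 * P).choose j : ℝ) * ((2 * Q).choose i : ℝ) * (w (2 * P + 2 * Q) (j + (2 * Q - i)) : ℝ))) *
        a ^ i * b ^ j := by
    intro P hP Q hQ
    rw [Finset.mem_range] at hP hQ
    rw [Finset.sum_comm]
    have h2 : ∑ l ∈ range (2 * Q + 1), ∑ k ∈ range (2 * P + 1),
        (cc P Q : ℝ) * (((2 * P).choose k : ℝ) * (b ^ k * (-1 : ℝ) ^ (2 * P - k))) *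
        (((2 * Q).choose l : ℝ) * ((1 : ℝ) ^ l * a ^ (2 * Q - l))) * (w (2 * P + 2 * Q) (k + l) : ℝ) =
        ∑ l ∈ range (2 * Q + 1), (fun i => ∑ k ∈ range (2 * P + 1),
        (cc P Q : ℝ) * (((2 * P).choose k : ℝ) * (b ^ k * (-1 : ℝ) ^ (2 * P - k))) *
        (((2 * Q).choose i : ℝ) * ((1 : ℝ) ^ l * a ^ i)) * (w (2 * P + 2 * Q) (k + (2 * Q - i)) : ℝ))
          (2 * Q - l) := by
      refine Finset.sum_congr rfl fun l hl => Finset.sum_congr rfl fun k hk => ?_
      rw [Finset.mem_range] at hl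
      have e1 : 2 * Q - (2 * Q - l) = l := by omega
      have e2 : (2 * Q).choose (2 * Q - l) = (2 * Q).choose l := Nat.choose_symm (by omega)
      rw [e1, e2]
    rw [h2]
    have h3 : ∑ l ∈ range (2 * Q + 1), (fun i => ∑ k ∈ range (2 * P + 1),
        (cc P Q : ℝ) * (((2 * P).choose k : ℝ) * (b ^ k * (-1 : ℝ) ^ (2 * P - k))) *
        (((2 * Q).choose i : ℝ) * ((1 : ℝ) ^ l * a ^ i)) * (w (2 * P + 2 * Q) (k + (2 * Q - i)) : ℝ))
          (2 * Q - l) = ∑ l ∈ range (2 * Q + 1), (fun i => ∑ k ∈ range (2 * P + 1),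
        (cc P Q : ℝ) * (((2 * P).choose k : ℝ) * (b ^ k * (-1 : ℝ) ^ (2 * P - k))) *
        (((2 * Q).choose i : ℝ) * a ^ i) * (w (2 * P + 2 * Q) (k + (2 * Q - i)) : ℝ))
          (2 * Q + 1 - 1 - l) := by
      refine Finset.sum_congr rfl fun l hl => ?_
      simp only [one_pow, one_mul, Nat.add_sub_cancel]
    rw [h3]
    rw [Finset.sum_range_reflect (fun i => ∑ k ∈ range (2 * P + 1),
        (cc P Q : ℝ) * (((2 * P).choose k : ℝ) * (b ^ k * (-1 : ℝ) ^ (2 * P - k))) *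
        (((2 * Q).choose i : ℝ) * a ^ i) * (w (2 * P + 2 * Q) (k + (2 * Q - i)) : ℝ)) (2 * Q + 1)]
    rw [sum_ext0 (m := 21) (by omega)]
    · refine Finset.sum_congr rfl fun i hi => ?_
      rw [sum_ext0 (m := 21) (by omega)]
      · refine Finset.sum_congr rfl fun k hk => ?_
        by_cases hk2 : k ≤ 2 * P
        · have e3 : (-1 : ℝ) ^ (2 * P - k) = (-1) ^ k := by
            have : (-1 : ℝ) ^ (2 * P - k) * (-1) ^ k = 1 := by
              rw [← pow_add]
              have : 2 * P - k + k = 2 * P := by omega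
              rw [this, pow_mul]; simp
            have h2 : (-1 : ℝ) ^ k * (-1) ^ k = 1 := by
              rw [← pow_add, ← two_mul, pow_mul]; simp
            have h3 : ((-1 : ℝ) ^ (2 * P - k) - (-1) ^ k) * (-1) ^ k = 0 := by
              rw [sub_mul, this, h2, sub_self]
            have h4 : (-1 : ℝ) ^ k ≠ 0 := pow_ne_zero _ (by norm_num)
            exact sub_eq_zero.1 ((mul_eq_zero.1 h3).resolve_right h4)
          rw [e3]
          ring
        · rw [Nat.choose_eq_zero_of_lt (by omega : 2 * P < k)]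
          simp
      · intro k hk
        rw [Nat.choose_eq_zero_of_lt (by omega : 2 * P < k)]
        simp
    · intro i hi
      apply Finset.sum_eq_zero
      intro k _
      rw [Nat.choose_eq_zero_of_lt (by omega : 2 * Q < i)]
      simp
  rw [Finset.sum_congr rfl fun P hP => Finset.sum_congr rfl fun Q hQ => h1 P hP Q hQ]
  have h5 : ∀ i ∈ range 21, ∀ j ∈ range 21, (r2 i j : ℝ) * a ^ i * b ^ j =
      ∑ P ∈ range 11, ∑ Q ∈ range 11, (-1 : ℝ) ^ j * ((cc P Q : ℝ) *
        (((2 * P).choose j : ℝ) * ((2 * Q).choose i : ℝ) * (w (2 * P + 2 * Q) (j + (2 * Q - i)) : ℝ))) *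
        a ^ i * b ^ j := by
    intro i _ j _
    unfold r2
    simp only [sm_eq]
    push_cast
    rw [Finset.mul_sum, Finset.sum_mul, Finset.sum_mul]
    refine Finset.sum_congr rfl fun P _ => ?_
    rw [Finset.mul_sum, Finset.sum_mul, Finset.sum_mul]
  rw [Finset.sum_congr rfl fun i hi => Finset.sum_congr rfl fun j hj => h5 i hi j hj]
  -- exchange the order of the four sums
  calc ∑ P ∈ range 11, ∑ Q ∈ range 11, ∑ i ∈ range 21, ∑ j ∈ range 21, (-1 : ℝ) ^ j * ((cc P Q : ℝ) *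
        (((2 * P).choose j : ℝ) * ((2 * Q).choose i : ℝ) * (w (2 * P + 2 * Q) (j + (2 * Q - i)) : ℝ))) *
        a ^ i * b ^ j
      = ∑ P ∈ range 11, ∑ i ∈ range 21, ∑ j ∈ range 21, ∑ Q ∈ range 11, (-1 : ℝ) ^ j * ((cc P Q : ℝ) *
        (((2 * P).choose j : ℝ) * ((2 * Q).choose i : ℝ) * (w (2 * P + 2 * Q) (j + (2 * Q - i)) : ℝ))) *
        a ^ i * b ^ j := by
        refine Finset.sum_congr rfl fun P _ => ?_
        rw [Finset.sum_comm]
        exact Finset.sum_congr rfl fun i _ => Finset.sum_comm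
    _ = _ := by
        rw [Finset.sum_comm]
        exact Finset.sum_congr rfl fun i _ => Finset.sum_comm

end Pool.Agent.Helper52.Chess
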