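import Mathlib

/-!
# The chessboard in `[-1, 1]²` and lines piercing its cells
-/

set_option autoImplicit false

namespace Pool.Agent.Helper52.Chess

/-- The line `a x + b y = c` in the plane (a genuine line when `(a, b) ≠ (0, 0)`). -/
def line (a b c : ℝ) : Set (ℝ × ℝ) := {p | a * p.1 + b * p.2 = c}

/-- The interior of the cell of the `n × n` chessboard `Q_n` in `[-1, 1]²` in column `i` and row `j`
(`i, j` run over `0, …, n - 1`; this is the cell `c_{i+1, j+1}` of the problem). -/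
def cellInterior (n : ℕ) (i j : Fin n) : Set (ℝ × ℝ) :=
  {p | -1 + 2 * ((i : ℕ) : ℝ) / n < p.1 ∧ p.1 < -1 + 2 * (((i : ℕ) : ℝ) + 1) / n ∧
       -1 + 2 * ((j : ℕ) : ℝ) / n < p.2 ∧ p.2 < -1 + 2 * (((j : ℕ) : ℝ) + 1) / n}

/-- A set `L` (a line) pierces the cell `(i, j)` of `Q_n` if it meets the interior of the cell. -/
def Pierces (L : Set (ℝ × ℝ)) (n : ℕ) (i j : Fin n) : Prop := (L ∩ cellInterior n i j).Nonempty

end Pool.Agent.Helper52.Chess
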