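import Mathlib

/-!
# A kernel-friendly nonnegativity check for polynomials in one and two variables

A list `[c_0, ..., c_n]` of elements of `V` stands for the homogeneous form
`∑ c_i X^(n-i) Y^i` (function `HV`). Subdivision: `TL` is the substitution `(X, X + 2 Y)`, `TR` is
`(2 X + Y, Y)`. All functions are written with recursors, so that the kernel evaluates them fast.
-/

set_option autoImplicit false

namespace Pool.Agent.Helper52.Chess

/-- subdivision tree -/
inductive Tr : Type
  | leaf : Tr
  | node : Tr → Tr → Tr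

section Gen

variable {V : Type}

/-- evaluation of the homogeneous form with coefficients `l` -/
def HV (E : V → ℝ) : List V → ℝ → ℝ → ℝ
  | [], _, _ => 0
  | c :: r, X, Y => E c * X ^ r.length + Y * HV E r X Y

/-- multiplication by a linear form, with a carry -/
noncomputable def ml (f : V → V → V) (z : V) (l : List V) : V → List V :=
  List.rec (motive := fun _ => V → List V) (fun p => [f z p]) (fun a _ ih p => f a p :: ih a) l

/-- add to the head -/
noncomputable def ah (ad : V → V → V) (c : V) (l : List V) : List V :=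
  List.rec (motive := fun _ => List V) [c] (fun h t _ => ad c h :: t) l

/-- `l(X, X + 2 Y)` -/
noncomputable def TL (ad f : V → V → V) (z : V) (l : List V) : List V :=
  List.rec (motive := fun _ => List V) [] (fun c _ ih => ah ad c (ml f z ih z)) l

/-- reversed concatenation -/
noncomputable def rvA (l : List V) : List V → List V :=
  List.rec (motive := fun _ => List V → List V) (fun s => s) (fun a _ ih s => ih (a :: s)) l

/-- `l(2 X + Y, Y)` -/
noncomputable def TR (ad f : V → V → V) (z : V) (l : List V) : List V :=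
  rvA (TL ad f z (rvA l [])) []

@[simp] lemma ml_nil (f : V → V → V) (z p : V) : ml f z [] p = [f z p] := rfl
@[simp] lemma ml_cons (f : V → V → V) (z p a : V) (l : List V) :
    ml f z (a :: l) p = f a p :: ml f z l a := rfl
@[simp] lemma ah_cons (ad : V → V → V) (c h : V) (t : List V) : ah ad c (h :: t) = ad c h :: t := rfl
@[simp] lemma TL_nil (ad f : V → V → V) (z : V) : TL ad f z [] = [] := rfl
@[simp] lemma TL_cons (ad f : V → V → V) (z c : V) (r : List V) :
    TL ad f z (c :: r) = ah ad c (ml f z (TL ad f z r) z) := rfl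
@[simp] lemma rvA_nil (s : List V) : rvA [] s = s := rfl
@[simp] lemma rvA_cons (a : V) (l s : List V) : rvA (a :: l) s = rvA l (a :: s) := rfl

lemma rvA_eq (l s : List V) : rvA l s = l.reverse ++ s := by
  induction l generalizing s with
  | nil => simp
  | cons a l ih => rw [rvA_cons, ih]; simp

@[simp] lemma HV_nil (E : V → ℝ) (X Y : ℝ) : HV E [] X Y = 0 := rfl
@[simp] lemma HV_cons (E : V → ℝ) (c : V) (r : List V) (X Y : ℝ) :
    HV E (c :: r) X Y = E c * X ^ r.length + Y * HV E r X Y := rfl

@[simp] lemma length_ml (f : V → V → V) (z : V) (l : List V) (p : V) :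
    (ml f z l p).length = l.length + 1 := by
  induction l generalizing p with
  | nil => rfl
  | cons a l ih => simp [ih]

lemma length_ah (ad : V → V → V) (c : V) (l : List V) (hl : l ≠ []) :
    (ah ad c l).length = l.length := by
  cases l with
  | nil => exact absurd rfl hl
  | cons a l => rfl

lemma ml_ne_nil (f : V → V → V) (z : V) (l : List V) (p : V) : ml f z l p ≠ [] := by
  intro h
  have := length_ml f z l p
  rw [h] at this
  simp at this

@[simp] lemma length_TL (ad f : V → V → V) (z : V) (l : List V) : (TL ad f z l).length = l.length := by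
  induction l with
  | nil => rfl
  | cons a l ih => rw [TL_cons, length_ah _ _ _ (ml_ne_nil _ _ _ _), length_ml, ih]; simp

@[simp] lemma length_TR (ad f : V → V → V) (z : V) (l : List V) : (TR ad f z l).length = l.length := by
  unfold TR; rw [rvA_eq, rvA_eq]; simp

/-- validity of the operations: `P` is preserved, `E` is linear -/
structure Lin (P : V → Prop) (E : V → ℝ) (f : V → V → V) (α β : ℝ) : Prop where
  mem : ∀ a p, P a → P p → P (f a p)
  eq : ∀ a p, P a → P p → E (f a p) = α * E a + β * E p

variable {P : V → Prop} {E : V → ℝ} {f ad : V → V → V} {z : V} {α β : ℝ}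

lemma ml_mem (hf : Lin P E f α β) (hz : P z) {l : List V} (hl : ∀ a ∈ l, P a) {p : V} (hp : P p) :
    ∀ a ∈ ml f z l p, P a := by
  induction l generalizing p with
  | nil => simpa using hf.mem z p hz hp
  | cons b l ih =>
    intro a ha
    rw [ml_cons, List.mem_cons] at ha
    rcases ha with rfl | ha
    · exact hf.mem _ _ (hl _ (by simp)) hp
    · exact ih (fun a ha => hl a (by simp [ha])) (hl b (by simp)) a ha

lemma HV_ml (hf : Lin P E f α β) (hz : P z) (hz0 : E z = 0) {l : List V} (hl : ∀ a ∈ l, P a)
    {p : V} (hp : P p) (X Y : ℝ) :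
    HV E (ml f z l p) X Y = (α * X + β * Y) * HV E l X Y + β * E p * X ^ l.length := by
  induction l generalizing p with
  | nil => simp [hf.eq z p hz hp, hz0]
  | cons b l ih =>
    rw [ml_cons, HV_cons, HV_cons, hf.eq b p (hl b (by simp)) hp,
      ih (fun a ha => hl a (by simp [ha])) (hl b (by simp)), length_ml]
    simp only [List.length_cons]
    ring

lemma ah_mem (had : Lin P E ad 1 1) {c : V} (hc : P c) {l : List V} (hl : ∀ a ∈ l, P a) :
    ∀ a ∈ ah ad c l, P a := by
  cases l with
  | nil => intro a ha; simp [ah] at ha; rw [ha]; exact hc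
  | cons b l =>
    intro a ha
    rw [ah_cons, List.mem_cons] at ha
    rcases ha with rfl | ha
    · exact had.mem _ _ hc (hl b (by simp))
    · exact hl a (by simp [ha])

lemma HV_ah (had : Lin P E ad 1 1) {c : V} (hc : P c) {l : List V} (hl : ∀ a ∈ l, P a)
    (hne : l ≠ []) (X Y : ℝ) : HV E (ah ad c l) X Y = E c * X ^ (l.length - 1) + HV E l X Y := by
  cases l with
  | nil => exact absurd rfl hne
  | cons b l =>
    rw [ah_cons, HV_cons, HV_cons, had.eq c b hc (hl b (by simp))]
    simp only [List.length_cons, Nat.add_sub_cancel]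
    ring

lemma TL_mem (had : Lin P E ad 1 1) (hf : Lin P E f 1 2) (hz : P z) {l : List V}
    (hl : ∀ a ∈ l, P a) : ∀ a ∈ TL ad f z l, P a := by
  induction l with
  | nil => simp
  | cons b l ih =>
    rw [TL_cons]
    exact ah_mem had (hl b (by simp)) (ml_mem hf hz (ih fun a ha => hl a (by simp [ha])) hz)

lemma HV_TL (had : Lin P E ad 1 1) (hf : Lin P E f 1 2) (hz : P z) (hz0 : E z = 0) {l : List V}
    (hl : ∀ a ∈ l, P a) (X Y : ℝ) : HV E (TL ad f z l) X Y = HV E l X (X + 2 * Y) := by
  induction l with
  | nil => rfl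
  | cons b l ih =>
    have hl' : ∀ a ∈ l, P a := fun a ha => hl a (by simp [ha])
    rw [TL_cons, HV_ah had (hl b (by simp)) (ml_mem hf hz (TL_mem had hf hz hl') hz)
      (ml_ne_nil _ _ _ _), HV_ml hf hz hz0 (TL_mem had hf hz hl') hz, ih hl', HV_cons, length_ml,
      length_TL, Nat.add_sub_cancel, hz0]
    ring

lemma HV_append_singleton (E : V → ℝ) (l : List V) (c : V) (X Y : ℝ) :
    HV E (l ++ [c]) X Y = X * HV E l X Y + E c * Y ^ l.length := by
  induction l with
  | nil => simp
  | cons b l ih =>
    rw [List.cons_append, HV_cons, HV_cons, ih]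
    simp only [List.length_append, List.length_cons, List.length_nil]
    ring

lemma HV_reverse (E : V → ℝ) (l : List V) (X Y : ℝ) : HV E l.reverse X Y = HV E l Y X := by
  induction l with
  | nil => rfl
  | cons b l ih =>
    rw [List.reverse_cons, HV_append_singleton, ih, HV_cons, List.length_reverse]
    ring

lemma TR_mem (had : Lin P E ad 1 1) (hf : Lin P E f 1 2) (hz : P z) {l : List V}
    (hl : ∀ a ∈ l, P a) : ∀ a ∈ TR ad f z l, P a := by
  unfold TR
  rw [rvA_eq, rvA_eq, List.append_nil, List.append_nil]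
  intro a ha
  rw [List.mem_reverse] at ha
  exact TL_mem had hf hz (fun a ha => hl a (List.mem_reverse.1 ha)) a ha

lemma HV_TR (had : Lin P E ad 1 1) (hf : Lin P E f 1 2) (hz : P z) (hz0 : E z = 0) {l : List V}
    (hl : ∀ a ∈ l, P a) (X Y : ℝ) : HV E (TR ad f z l) X Y = HV E l (2 * X + Y) Y := by
  unfold TR
  rw [rvA_eq, rvA_eq, List.append_nil, List.append_nil, HV_reverse,
    HV_TL had hf hz hz0 (fun a ha => hl a (List.mem_reverse.1 ha)), HV_reverse]
  congr 1
  ring

end Gen

/-! ### One variable -/

/-- evaluation of a form with natural coefficients -/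
noncomputable def HN (l : List ℕ) (X Y : ℝ) : ℝ := HV (fun x : ℕ => (x : ℝ)) l X Y

/-- `M * b_i ≤ l_i` for all `i` -/
noncomputable def le1 (M : ℕ) (b : List ℕ) : List ℕ → Bool :=
  List.rec (motive := fun _ => List ℕ → Bool)
    (fun l => List.rec (motive := fun _ => Bool) true (fun _ _ _ => false) l)
    (fun c _ ih l => List.rec (motive := fun _ => Bool) false
      (fun a t _ => cond (Nat.ble (Nat.mul M c) a) (ih t) false) l) b

lemma le1_sound {M : ℕ} {b l : List ℕ} (h : le1 M b l = true) {X Y : ℝ} (hX : 0 ≤ X)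
    (hY : 0 ≤ Y) : (M : ℝ) * HN b X Y ≤ HN l X Y := by
  unfold HN
  induction b generalizing l with
  | nil =>
    cases l with
    | nil => simp
    | cons a t => exact absurd h (by simp [le1])
  | cons c b ih =>
    cases l with
    | nil => exact absurd h (by simp [le1])
    | cons a t =>
      have h' : cond (Nat.ble (Nat.mul M c) a) (le1 M b t) false = true := h
      have hlen : ∀ {b l : List ℕ}, le1 M b l = true → l.length = b.length := by
        intro b
        induction b with
        | nil =>
          intro l hl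
          cases l with
          | nil => rfl
          | cons a t => exact absurd hl (by simp [le1])
        | cons c b ih =>
          intro l hl
          cases l with
          | nil => exact absurd hl (by simp [le1])
          | cons a t =>
            have hl' : cond (Nat.ble (Nat.mul M c) a) (le1 M b t) false = true := hl
            cases hb : Nat.ble (Nat.mul M c) a with
            | false => rw [hb] at hl'; exact absurd hl' (by simp)
            | true => rw [hb] at hl'; simp [ih hl']
      cases hb : Nat.ble (Nat.mul M c) a with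
      | false => rw [hb] at h'; exact absurd h' (by simp)
      | true =>
        rw [hb] at h'
        have h1 : M * c ≤ a := Nat.le_of_ble_eq_true hb
        have h2 : (M : ℝ) * c ≤ a := by exact_mod_cast h1
        have h3 := ih h'
        have h4 := hlen h'
        rw [HV_cons, HV_cons, h4]
        have h5 := mul_le_mul_of_nonneg_left h3 hY
        have h6 := mul_le_mul_of_nonneg_right h2 (pow_nonneg hX b.length)
        calc (M : ℝ) * (c * X ^ b.length + Y * HV (fun x : ℕ => (x : ℝ)) b X Y)
            = (M : ℝ) * c * X ^ b.length + Y * (M * HV (fun x : ℕ => (x : ℝ)) b X Y) := by ring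
          _ ≤ _ := add_le_add h6 h5

/-- the step of the subdivision on `ℕ` -/
noncomputable def f2 (a p : ℕ) : ℕ := Nat.add a (Nat.mul 2 p)

lemma lin_add : Lin (fun _ : ℕ => True) (fun x : ℕ => (x : ℝ)) Nat.add 1 1 :=
  ⟨fun _ _ _ _ => trivial, fun a p _ _ => by
    show ((a + p : ℕ) : ℝ) = _
    push_cast; ring⟩

lemma lin_f2 : Lin (fun _ : ℕ => True) (fun x : ℕ => (x : ℝ)) f2 1 2 :=
  ⟨fun _ _ _ _ => trivial, fun a p _ _ => by
    show ((a + 2 * p : ℕ) : ℝ) = _
    push_cast; ring⟩

lemma HN_TL (l : List ℕ) (X Y : ℝ) : HN (TL Nat.add f2 0 l) X Y = HN l X (X + 2 * Y) :=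
  HV_TL lin_add lin_f2 trivial (by simp) (fun _ _ => trivial) X Y

lemma HN_TR (l : List ℕ) (X Y : ℝ) : HN (TR Nat.add f2 0 l) X Y = HN l (2 * X + Y) Y :=
  HV_TR lin_add lin_f2 trivial (by simp) (fun _ _ => trivial) X Y

/-- recursive check of `M (X+Y)^n ≤ l(X, Y)` on `X, Y ≥ 0` (`q = 2^n`, `b` the binomial row) -/
noncomputable def chk1 (q : ℕ) (b : List ℕ) (k : ℕ) : ℕ → List ℕ → Bool :=
  Nat.rec (motive := fun _ => ℕ → List ℕ → Bool) (fun M l => le1 M b l)
    (fun _ ih M l => cond (le1 M b l) true
      (cond (ih (Nat.mul q M) (TL Nat.add f2 0 l)) (ih (Nat.mul q M) (TR Nat.add f2 0 l)) false)) k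

lemma chk1_sound {n : ℕ} {b : List ℕ} (hb : ∀ X Y : ℝ, HN b X Y = (X + Y) ^ n) {k M : ℕ}
    {l : List ℕ} (h : chk1 (2 ^ n) b k M l = true) {X Y : ℝ} (hX : 0 ≤ X) (hY : 0 ≤ Y) :
    (M : ℝ) * (X + Y) ^ n ≤ HN l X Y := by
  induction k generalizing M l X Y with
  | zero =>
    have h' : le1 M b l = true := h
    rw [← hb]
    exact le1_sound h' hX hY
  | succ k ih =>
    have h' : cond (le1 M b l) true (cond (chk1 (2 ^ n) b k (2 ^ n * M) (TL Nat.add f2 0 l))
      (chk1 (2 ^ n) b k (2 ^ n * M) (TR Nat.add f2 0 l)) false) = true := h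
    cases h1 : le1 M b l with
    | true =>
      rw [← hb]
      exact le1_sound h1 hX hY
    | false =>
      rw [h1] at h'
      cases h2 : chk1 (2 ^ n) b k (2 ^ n * M) (TL Nat.add f2 0 l) with
      | false => rw [h2] at h'; exact absurd h' (by simp)
      | true =>
        rw [h2] at h'
        have h3 : chk1 (2 ^ n) b k (2 ^ n * M) (TR Nat.add f2 0 l) = true := h'
        rcases le_total X Y with hXY | hXY
        · have h4 := ih h2 (X := X) (Y := (Y - X) / 2) hX (by linarith)
          rw [HN_TL] at h4
          have e1 : X + 2 * ((Y - X) / 2) = Y := by ring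
          rw [e1] at h4
          have e2 : ((2 ^ n * M : ℕ) : ℝ) * (X + (Y - X) / 2) ^ n = M * (X + Y) ^ n := by
            push_cast
            rw [mul_comm ((2:ℝ) ^ n), mul_assoc, ← mul_pow]
            congr 2
            ring
          rw [e2] at h4
          exact h4
        · have h4 := ih h3 (X := (X - Y) / 2) (Y := Y) (by linarith) hY
          rw [HN_TR] at h4
          have e1 : 2 * ((X - Y) / 2) + Y = X := by ring
          rw [e1] at h4
          have e2 : ((2 ^ n * M : ℕ) : ℝ) * ((X - Y) / 2 + Y) ^ n = M * (X + Y) ^ n := by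
            push_cast
            rw [mul_comm ((2:ℝ) ^ n), mul_assoc, ← mul_pow]
            congr 2
            ring
          rw [e2] at h4
          exact h4

/-! ### Two variables -/

/-- `zipWith` -/
noncomputable def vz (g : ℕ → ℕ → ℕ) (u : List ℕ) : List ℕ → List ℕ :=
  List.rec (motive := fun _ => List ℕ → List ℕ) (fun _ => [])
    (fun a _ ih v => List.rec (motive := fun _ => List ℕ) [] (fun b t _ => g a b :: ih t) v) u

@[simp] lemma vz_cons (g : ℕ → ℕ → ℕ) (a b : ℕ) (u v : List ℕ) :
    vz g (a :: u) (b :: v) = g a b :: vz g u v := rfl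

lemma vz_lin {g : ℕ → ℕ → ℕ} {α β : ℝ} (hg : ∀ a b : ℕ, ((g a b : ℕ) : ℝ) = α * a + β * b) (m : ℕ)
    (X Y : ℝ) : Lin (fun u : List ℕ => u.length = m) (fun u => HN u X Y) (vz g) α β := by
  have key : ∀ (u v : List ℕ), u.length = v.length → (vz g u v).length = u.length ∧
      HN (vz g u v) X Y = α * HN u X Y + β * HN v X Y := by
    intro u
    induction u with
    | nil =>
      intro v hv
      cases v with
      | nil => exact ⟨rfl, by simp [HN, vz]⟩
      | cons b v => exact absurd hv (by simp)
    | cons a u ih =>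
      intro v hv
      cases v with
      | nil => exact absurd hv (by simp)
      | cons b v =>
        have hv' : u.length = v.length := by simpa using hv
        obtain ⟨h1, h2⟩ := ih v hv'
        refine ⟨by simp [h1], ?_⟩
        unfold HN at h2 ⊢
        rw [vz_cons, HV_cons, HV_cons, HV_cons, h2, h1, hg, ← hv']
        ring
  refine ⟨fun u v hu hv => ?_, fun u v hu hv => (key u v (hu.trans hv.symm)).2⟩
  exact (key u v (hu.trans hv.symm)).1.trans hu

lemma vz_add (m : ℕ) (X Y : ℝ) :
    Lin (fun u : List ℕ => u.length = m) (fun u => HN u X Y) (vz Nat.add) 1 1 :=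
  vz_lin (fun a b => by show ((a + b : ℕ) : ℝ) = _; push_cast; ring) m X Y

lemma vz_f2 (m : ℕ) (X Y : ℝ) :
    Lin (fun u : List ℕ => u.length = m) (fun u => HN u X Y) (vz f2) 1 2 :=
  vz_lin (fun a b => by show ((a + 2 * b : ℕ) : ℝ) = _; push_cast; ring) m X Y

/-- all rows are checked, with the bounds `M * b_i` -/
noncomputable def rows (q : ℕ) (c : List ℕ) (k M : ℕ) (b : List ℕ) : List (List ℕ) → Bool :=
  List.rec (motive := fun _ => List (List ℕ) → Bool)
    (fun l => List.rec (motive := fun _ => Bool) true (fun _ _ _ => false) l)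
    (fun d _ ih l => List.rec (motive := fun _ => Bool) false
      (fun a t _ => cond (chk1 q c k (Nat.mul M d) a) (ih t) false) l) b

lemma rows_sound {n : ℕ} {c : List ℕ} (hc : ∀ X Y : ℝ, HN c X Y = (X + Y) ^ n) {k M : ℕ}
    {b : List ℕ} {L : List (List ℕ)} (h : rows (2 ^ n) c k M b L = true) {X Y S T : ℝ}
    (hX : 0 ≤ X) (hY : 0 ≤ Y) (hS : 0 ≤ S) (hT : 0 ≤ T) :
    (M : ℝ) * HN b X Y * (S + T) ^ n ≤ HV (fun u => HN u S T) L X Y ∧ L.length = b.length := by
  induction b generalizing L with
  | nil =>
    cases L with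
    | nil => simp [HN]
    | cons a t => exact absurd h (by simp [rows])
  | cons d b ih =>
    cases L with
    | nil => exact absurd h (by simp [rows])
    | cons a t =>
      have h' : cond (chk1 (2 ^ n) c k (M * d) a) (rows (2 ^ n) c k M b t) false = true := h
      cases hb : chk1 (2 ^ n) c k (M * d) a with
      | false => rw [hb] at h'; exact absurd h' (by simp)
      | true =>
        rw [hb] at h'
        obtain ⟨h3, h4⟩ := ih h'
        have h1 := chk1_sound hc hb hS hT
        refine ⟨?_, by simp [h4]⟩
        rw [HV_cons, h4]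
        have e : (M : ℝ) * HN (d :: b) X Y * (S + T) ^ n =
            (((M * d : ℕ) : ℝ) * (S + T) ^ n) * X ^ b.length + Y * (M * HN b X Y * (S + T) ^ n) := by
          unfold HN
          rw [HV_cons]
          push_cast
          ring
        rw [e]
        exact add_le_add (mul_le_mul_of_nonneg_right h1 (pow_nonneg hX _))
          (mul_le_mul_of_nonneg_left h3 hY)

/-- the check on a subdivision tree of the outer variable (`Q = 2^N`, `z` a zero row) -/
noncomputable def chk2 (q : ℕ) (c : List ℕ) (k Q : ℕ) (b z : List ℕ) (t : Tr) :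
    ℕ → List (List ℕ) → Bool :=
  Tr.rec (motive := fun _ => ℕ → List (List ℕ) → Bool)
    (fun M L => rows q c k M b L)
    (fun _ _ i j M L => cond (i (Nat.mul Q M) (TL (vz Nat.add) (vz f2) z L))
      (j (Nat.mul Q M) (TR (vz Nat.add) (vz f2) z L)) false) t

theorem chk2_sound {n N : ℕ} {c b z : List ℕ} (hc : ∀ X Y : ℝ, HN c X Y = (X + Y) ^ n)
    (hb : ∀ X Y : ℝ, HN b X Y = (X + Y) ^ N) (hz : ∀ X Y : ℝ, HN z X Y = 0) {k M : ℕ} {t : Tr}
    {L : List (List ℕ)} (hL : ∀ u ∈ L, u.length = z.length)
    (h : chk2 (2 ^ n) c k (2 ^ N) b z t M L = true) {X Y S T : ℝ}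
    (hX : 0 ≤ X) (hY : 0 ≤ Y) (hS : 0 ≤ S) (hT : 0 ≤ T) :
    (M : ℝ) * (X + Y) ^ N * (S + T) ^ n ≤ HV (fun u => HN u S T) L X Y := by
  induction t generalizing M L X Y with
  | leaf =>
    have h' : rows (2 ^ n) c k M b L = true := h
    have := (rows_sound hc h' hX hY hS hT).1
    rw [hb] at this
    exact this
  | node t1 t2 ih1 ih2 =>
    have h' : cond (chk2 (2 ^ n) c k (2 ^ N) b z t1 (2 ^ N * M) (TL (vz Nat.add) (vz f2) z L))
      (chk2 (2 ^ n) c k (2 ^ N) b z t2 (2 ^ N * M) (TR (vz Nat.add) (vz f2) z L)) false = true := h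
    cases h2 : chk2 (2 ^ n) c k (2 ^ N) b z t1 (2 ^ N * M) (TL (vz Nat.add) (vz f2) z L) with
    | false => rw [h2] at h'; exact absurd h' (by simp)
    | true =>
      rw [h2] at h'
      have h3 : chk2 (2 ^ n) c k (2 ^ N) b z t2 (2 ^ N * M) (TR (vz Nat.add) (vz f2) z L) = true := h'
      have A := vz_add z.length S T
      have B := vz_f2 z.length S T
      rcases le_total X Y with hXY | hXY
      · have h4 := ih1 (TL_mem A B rfl hL) h2 (X := X) (Y := (Y - X) / 2) hX (by linarith)
        rw [HV_TL A B rfl (hz S T) hL] at h4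
        have e1 : X + 2 * ((Y - X) / 2) = Y := by ring
        rw [e1] at h4
        have e2 : ((2 ^ N * M : ℕ) : ℝ) * (X + (Y - X) / 2) ^ N = M * (X + Y) ^ N := by
          push_cast
          rw [mul_comm ((2:ℝ) ^ N), mul_assoc, ← mul_pow]
          congr 2
          ring
        rw [e2] at h4
        exact h4
      · have h4 := ih2 (TR_mem A B rfl hL) h3 (X := (X - Y) / 2) (Y := Y) (by linarith) hY
        rw [HV_TR A B rfl (hz S T) hL] at h4
        have e1 : 2 * ((X - Y) / 2) + Y = X := by ring
        rw [e1] at h4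
        have e2 : ((2 ^ N * M : ℕ) : ℝ) * ((X - Y) / 2 + Y) ^ N = M * (X + Y) ^ N := by
          push_cast
          rw [mul_comm ((2:ℝ) ^ N), mul_assoc, ← mul_pow]
          congr 2
          ring
        rw [e2] at h4
        exact h4

end Pool.Agent.Helper52.Chess
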