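import Mathlib

/-!
# The weight function

`F x y = ∑_{P, Q ≤ 10} cc P Q x^(2P) y^(2Q)` is an even symmetric polynomial; `F / DD` is the weight used for the
linear programming bound (chord integrals at most `1`, mean value `> 3/4`).
-/

set_option autoImplicit false

namespace Pool.Agent.Helper52.Chess

open Finset

/-- the coefficients -/
def ctab : List (List ℤ) := [
  [3296, -289168, 9066888, -108189632, 678631040, -2496034816, 5662154752, -8025088000, 6927384576, -3333816320, 686292992],
  [-289168, 17029400, -294556560, 3429149120, -23081897472, 91913143296, -225126219776, 343109009408, -317009428480, 162439102464, -35397828608],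
  [9066888, -294556560, 1329224960, -9907809280, 116952389632, -699588927488, 2219716853760, -4023074881536, 4195208134656, -2344301363200, 543980257280],
  [-108189632, 3429149120, -9907809280, 19616194560, -724016701440, 5829354078208, -20636411428864, 39272801632256, -41875316670464, 23600291643392, -5479891730432],
  [678631040, -23081897472, 116952389632, -724016701440, 8076661522432, -48669664215040, 153974291562496, -275319405674496, 281321528098816, -153415392952320, 34661996691456],
  [-2496034816, 91913143296, -699588927488, 5829354078208, -48669664215040, 243970566258688, -699037232660480, 1174943467307008, -1149092143038464, 605803526488064, -133138885902336],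
  [5662154752, -225126219776, 2219716853760, -20636411428864, 153974291562496, -699037232660480, 1875841227161600, -3012114939641856, 2846411527815168, -1460084601257984, 313647502983168],
  [-8025088000, 343109009408, -4023074881536, 39272801632256, -275319405674496, 1174943467307008, -3012114939641856, 4674495839207424, -4300835563503616, 2158377832546304, -455133389389824],
  [6927384576, -317009428480, 4195208134656, -41875316670464, 281321528098816, -1149092143038464, 2846411527815168, -4300835563503616, 3872769863319552, -1908975524118528, 396391121682432],
  [-3333816320, 162439102464, -2344301363200, 23600291643392, -153415392952320, 605803526488064, -1460084601257984, 2158377832546304, -1908975524118528, 926819582738432, -189940633698304],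
  [686292992, -35397828608, 543980257280, -5479891730432, 34661996691456, -133138885902336, 313647502983168, -455133389389824, 396391121682432, -189940633698304, 38482906972160]]

/-- the coefficient of `x^(2P) y^(2Q)` -/
def cc (P Q : ℕ) : ℤ := (ctab.getD P []).getD Q 0

/-- the denominator -/
def DD : ℕ := 20012

/-- `DD` times the weight function on `[-1, 1]²` -/
noncomputable def F (x y : ℝ) : ℝ := ∑ P ∈ range 11, ∑ Q ∈ range 11, (cc P Q : ℝ) * x ^ (2 * P) * y ^ (2 * Q)

/-- the centre of the column (row) `i`, in `[-1, 1]` -/
noncomputable def ctr (n i : ℕ) : ℝ := (2 * (i : ℝ) + 1) / n - 1

end Pool.Agent.Helper52.Chess
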