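import Mathlib
import Pool.Agent.Helper52.Chess.Wt

/-!
# Block CH-C: chords of slope between 0 and 1

`Base G D` collects the properties of the weight: symmetries, nonnegativity on the square, and the chord
inequality for the chords from the left side `(-1, a)` to the right side `(1, b)` (`lr`) and from the left side
`(-1, a)` to the top side `(b, 1)` (`lt`).

Proof of `chord_le`. Let `0 < s` first. Enlarge `[x0, x1]` to the maximal interval `[u0, u1]` on which the line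
stays in the square: `u0 = max (-1) ((-1 - k)/s)`, `u1 = min 1 ((1 - k)/s)` (the integrand is `≥ 0` there:
`intervalIntegral.integral_mono_interval`). Cases.
(i) `u0 = -1`, `u1 = 1`: `lr` with `a = k - s`, `b = k + s`; substitution `x = -1 + 2 t`
(`intervalIntegral.integral_comp_add_mul` or similar); `(2 + b - a) = 2 (1 + s)`, `∫_{-1}^1 = 2 ∫_0^1`.
(ii) `u0 = -1`, `u1 = (1 - k)/s < 1`: `lt` with `a = k - s`, `b = u1`; substitution `x = -1 + (1 + b) t`, and
`(1 + s)(1 + b) = (1 + b) + (1 - a)` since `s (1 + b) = 1 - a`.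
(iii) `u0 = (-1 - k)/s > -1`, `u1 = 1`: central symmetry `(x, y) ↦ (-x, -y)` (`G (-x) (-y) = G x y`) maps this to case (ii) (or (i))
for the line `y = s x - k`.
(iv) `u0 > -1` and `u1 < 1`: then `s (u1 - u0) = 2` with `u1 - u0 < 2`, so `s > 1`, impossible.
For `s = 0` the line is `y = k`, `-1 ≤ k ≤ 1`: `[u0, u1] = [-1, 1]`, case (i).
If `x0 = x1` everything is trivial (the integral is `0` and `0 ≤ D` follows from `lr` and `nonneg`), no need to treat it separately
if the enlargement is used.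
-/

set_option autoImplicit false

namespace Pool.Agent.Helper52.Chess

open Set MeasureTheory

/-- Properties of a weight function. -/
structure Base (G : ℝ → ℝ → ℝ) (D : ℝ) : Prop where
  cont : Continuous (fun p : ℝ × ℝ => G p.1 p.2)
  ex : ∀ x y, G (-x) y = G x y
  ey : ∀ x y, G x (-y) = G x y
  sym : ∀ x y, G x y = G y x
  nonneg : ∀ x ∈ Icc (-1 : ℝ) 1, ∀ y ∈ Icc (-1 : ℝ) 1, 0 ≤ G x y
  lr : ∀ a ∈ Icc (-1 : ℝ) 1, ∀ b ∈ Icc (-1 : ℝ) 1,
    (2 + b - a) * ∫ t in (0 : ℝ)..1, G (-1 + 2 * t) ((1 - t) * a + t * b) ≤ 2 * D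
  lt : ∀ a ∈ Icc (-1 : ℝ) 1, ∀ b ∈ Icc (-1 : ℝ) 1,
    (2 + b - a) * ∫ t in (0 : ℝ)..1, G (-(1 - t) + t * b) ((1 - t) * a + t) ≤ 2 * D

theorem Base.icont {G : ℝ → ℝ → ℝ} {D : ℝ} (h : Base G D) (s k : ℝ) :
    Continuous (fun x : ℝ => G x (s * x + k)) :=
  h.cont.comp (continuous_id.prodMk ((continuous_const.mul continuous_id).add continuous_const))

theorem Base.mono_chord {G : ℝ → ℝ → ℝ} {D : ℝ} (h : Base G D) {s k x0 x1 u0 u1 : ℝ}
    (hu0 : -1 ≤ u0) (h0 : u0 ≤ x0) (h01 : x0 ≤ x1) (h1 : x1 ≤ u1) (hu1 : u1 ≤ 1)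
    (hs0 : 0 ≤ s) (hy0 : -1 ≤ s * u0 + k) (hy1 : s * u1 + k ≤ 1) :
    ∫ x in x0..x1, G x (s * x + k) ≤ ∫ x in u0..u1, G x (s * x + k) := by
  have h00 : u0 ≤ u1 := h0.trans (h01.trans h1)
  refine intervalIntegral.integral_mono_interval h0 h01 h1 ?_ ((h.icont s k).intervalIntegrable _ _)
  refine (ae_restrict_iff' measurableSet_Ioc).2 (Filter.Eventually.of_forall fun x hx => ?_)
  refine h.nonneg x ⟨hu0.trans hx.1.le, hx.2.trans hu1⟩ _ ⟨?_, ?_⟩
  · have := mul_le_mul_of_nonneg_left hx.1.le hs0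
    linarith
  · have := mul_le_mul_of_nonneg_left hx.2 hs0
    linarith

theorem Base.chord_lr {G : ℝ → ℝ → ℝ} {D : ℝ} (h : Base G D) {s k : ℝ} (hs0 : 0 ≤ s)
    (ha : -1 ≤ k - s) (hb : k + s ≤ 1) :
    (1 + s) * ∫ x in (-1 : ℝ)..1, G x (s * x + k) ≤ 2 * D := by
  have key := h.lr (k - s) ⟨ha, by linarith⟩ (k + s) ⟨by linarith, hb⟩
  have e : ∫ t in (0 : ℝ)..1, G (-1 + 2 * t) ((1 - t) * (k - s) + t * (k + s))
      = (2 : ℝ)⁻¹ * ∫ x in (-1 : ℝ)..1, G x (s * x + k) := by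
    have := intervalIntegral.integral_comp_add_mul (a := (0 : ℝ)) (b := 1)
      (fun x => G x (s * x + k)) (two_ne_zero) (-1)
    rw [show (-1 : ℝ) + 2 * 0 = -1 by norm_num, show (-1 : ℝ) + 2 * 1 = 1 by norm_num] at this
    rw [smul_eq_mul] at this
    rw [← this]
    refine intervalIntegral.integral_congr fun t _ => ?_
    show G (-1 + 2 * t) _ = G (-1 + 2 * t) _
    congr 1
    ring
  rw [e] at key
  nlinarith [key]

theorem Base.chord_lt {G : ℝ → ℝ → ℝ} {D : ℝ} (h : Base G D) {s k u : ℝ}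
    (ha : -1 ≤ k - s) (ha' : k - s ≤ 1) (hu0 : -1 < u) (hu1 : u ≤ 1) (hu : s * u + k = 1) :
    (1 + s) * ∫ x in (-1 : ℝ)..u, G x (s * x + k) ≤ 2 * D := by
  have key := h.lt (k - s) ⟨ha, ha'⟩ u ⟨hu0.le, hu1⟩
  have hne : (1 + u) ≠ 0 := by linarith
  have e : ∫ t in (0 : ℝ)..1, G (-(1 - t) + t * u) ((1 - t) * (k - s) + t)
      = (1 + u)⁻¹ * ∫ x in (-1 : ℝ)..u, G x (s * x + k) := by
    have := intervalIntegral.integral_comp_add_mul (a := (0 : ℝ)) (b := 1)
      (fun x => G x (s * x + k)) hne (-1)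
    rw [show (-1 : ℝ) + (1 + u) * 0 = -1 by ring, show (-1 : ℝ) + (1 + u) * 1 = u by ring] at this
    rw [smul_eq_mul] at this
    rw [← this]
    refine intervalIntegral.integral_congr fun t _ => ?_
    show G (-(1 - t) + t * u) _ = G (-1 + (1 + u) * t) _
    congr 1
    · ring
    · have : (1 : ℝ) - (k - s) = s * (1 + u) := by linarith
      calc (1 - t) * (k - s) + t = (k - s) + t * (1 - (k - s)) := by ring
        _ = (k - s) + t * (s * (1 + u)) := by rw [this]
        _ = s * (-1 + (1 + u) * t) + k := by ring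
  rw [e] at key
  have e2 : (2 + u - (k - s)) = (1 + u) * (1 + s) := by nlinarith
  rw [e2] at key
  calc (1 + s) * ∫ x in (-1 : ℝ)..u, G x (s * x + k)
      = (1 + u) * (1 + s) * ((1 + u)⁻¹ * ∫ x in (-1 : ℝ)..u, G x (s * x + k)) := by
        field_simp
    _ ≤ 2 * D := key

theorem Base.chord_aux {G : ℝ → ℝ → ℝ} {D : ℝ} (h : Base G D) {s k x0 x1 : ℝ} (hs0 : 0 ≤ s)
    (h0 : -1 ≤ x0) (h01 : x0 ≤ x1) (h1 : x1 ≤ 1) (hy0 : -1 ≤ k - s) (hy1 : s * x1 + k ≤ 1) :
    (1 + s) * ∫ x in x0..x1, G x (s * x + k) ≤ 2 * D := by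
  have hs' : 0 ≤ 1 + s := by linarith
  rcases le_or_gt (k + s) 1 with hc | hc
  · have := h.mono_chord (s := s) (k := k) (u0 := -1) (u1 := 1) le_rfl h0 h01 h1 le_rfl hs0
      (by linarith) (by linarith)
    exact (mul_le_mul_of_nonneg_left this hs').trans (h.chord_lr hs0 hy0 hc)
  · have hspos : 0 < s := by
      rcases hs0.lt_or_eq with hs | hs
      · exact hs
      · exfalso; subst hs; linarith
    have hu : s * ((1 - k) / s) + k = 1 := by field_simp; ring
    have hxu : x1 ≤ (1 - k) / s := by rw [le_div_iff₀ hspos]; linarith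
    have hu1 : (1 - k) / s ≤ 1 := by rw [div_le_iff₀ hspos]; linarith
    have := h.mono_chord (s := s) (k := k) (u0 := -1) (u1 := (1 - k) / s) le_rfl h0 h01 hxu hu1 hs0
      (by linarith) hu.le
    rcases (h0.trans (h01.trans hxu)).lt_or_eq with hlt | heq
    · refine (mul_le_mul_of_nonneg_left this hs').trans (h.chord_lt hy0 ?_ hlt hu1 hu)
      nlinarith
    · rw [← heq] at this
      rw [intervalIntegral.integral_same] at this
      have hD : 0 ≤ 2 * D := by
        have h2 := h.chord_lr (s := 0) (k := 0) le_rfl (by norm_num) (by norm_num)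
        have h3 : 0 ≤ ∫ x in (-1 : ℝ)..1, G x (0 * x + 0) := by
          refine intervalIntegral.integral_nonneg (by norm_num) fun x hx => ?_
          exact h.nonneg x hx _ ⟨by norm_num, by norm_num⟩
        linarith
      have := mul_le_mul_of_nonneg_left this hs'
      linarith

theorem chord_le {G : ℝ → ℝ → ℝ} {D : ℝ} (h : Base G D) {s k x0 x1 : ℝ} (hs0 : 0 ≤ s) (hs1 : s ≤ 1)
    (h0 : -1 ≤ x0) (h01 : x0 ≤ x1) (h1 : x1 ≤ 1) (hy0 : -1 ≤ s * x0 + k) (hy1 : s * x1 + k ≤ 1) :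
    (1 + s) * ∫ x in x0..x1, G x (s * x + k) ≤ 2 * D := by
  rcases le_or_gt (-1) (k - s) with hc | hc
  · exact h.chord_aux hs0 h0 h01 h1 hc hy1
  · have e : ∫ x in x0..x1, G x (s * x + k) = ∫ x in (-x1)..(-x0), G x (s * x + -k) := by
      rw [← intervalIntegral.integral_comp_neg (fun x => G x (s * x + -k))]
      refine intervalIntegral.integral_congr fun x _ => ?_
      show G x (s * x + k) = G (-x) (s * -x + -k)
      rw [h.ex, show s * -x + -k = -(s * x + k) by ring, h.ey]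
    rw [e]
    exact h.chord_aux hs0 (by linarith) (by linarith) (by linarith) (by linarith) (by linarith)

end Pool.Agent.Helper52.Chess
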