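import Pool.Agent.Helper52.Chess.Chk

/-!
# From monomial coefficients to the homogeneous form

`EV E [g_0, ..., g_n] x = ∑ g_i x^i`. `conv` computes the form in `X, Y` of the polynomial `∑ g_i (α X + β Y)^i` when
`X + Y = 1`.
-/

set_option autoImplicit false

namespace Pool.Agent.Helper52.Chess

section Gen

variable {V : Type}

/-- ascending evaluation -/
def EV (E : V → ℝ) : List V → ℝ → ℝ
  | [], _ => 0
  | c :: r, x => E c + x * EV E r x

@[simp] lemma EV_nil (E : V → ℝ) (x : ℝ) : EV E [] x = 0 := rfl
@[simp] lemma EV_cons (E : V → ℝ) (c : V) (r : List V) (x : ℝ) :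
    EV E (c :: r) x = E c + x * EV E r x := rfl

/-- binomial rows -/
noncomputable def bin (n : ℕ) : List ℕ :=
  Nat.rec (motive := fun _ => List ℕ) [1] (fun _ ih => ml Nat.add 0 ih 0) n

lemma lin_add' : Lin (fun _ : ℕ => True) (fun x : ℕ => (x : ℝ)) Nat.add 1 1 :=
  ⟨fun _ _ _ _ => trivial, fun a p _ _ => by
    show ((a + p : ℕ) : ℝ) = _
    push_cast; ring⟩

@[simp] lemma bin_zero : bin 0 = [1] := rfl
@[simp] lemma bin_succ (n : ℕ) : bin (n + 1) = ml Nat.add 0 (bin n) 0 := rfl

lemma HN_bin (n : ℕ) (X Y : ℝ) : HN (bin n) X Y = (X + Y) ^ n := by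
  induction n with
  | zero => simp [HN]
  | succ n ih =>
    unfold HN at ih ⊢
    rw [bin_succ, HV_ml lin_add' trivial (by simp) (fun _ _ => trivial) trivial, ih]
    simp
    ring

lemma length_bin (n : ℕ) : (bin n).length = n + 1 := by
  induction n with
  | zero => rfl
  | succ n ih => rw [bin_succ, length_ml, ih]

/-- zip with a list of naturals -/
noncomputable def zc (g : V → ℕ → V) (u : List V) : List ℕ → List V :=
  List.rec (motive := fun _ => List ℕ → List V) (fun _ => [])
    (fun a _ ih v => List.rec (motive := fun _ => List V) [] (fun b t _ => g a b :: ih t) v) u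

@[simp] lemma zc_cons (g : V → ℕ → V) (a : V) (b : ℕ) (u : List V) (v : List ℕ) :
    zc g (a :: u) (b :: v) = g a b :: zc g u v := rfl

lemma HV_zc {P : V → Prop} {E : V → ℝ} {g : V → ℕ → V} {e : ℝ}
    (hg : ∀ x p, P x → P (g x p) ∧ E (g x p) = E x + p * e) (X Y : ℝ) :
    ∀ (u : List V) (v : List ℕ), u.length = v.length → (∀ a ∈ u, P a) →
      (zc g u v).length = u.length ∧ (∀ a ∈ zc g u v, P a) ∧
        HV E (zc g u v) X Y = HV E u X Y + e * HN v X Y := by
  intro u
  induction u with
  | nil =>
    intro v hv _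
    cases v with
    | nil => exact ⟨rfl, by simp [zc], by simp [zc, HN]⟩
    | cons b v => exact absurd hv (by simp)
  | cons a u ih =>
    intro v hv hP
    cases v with
    | nil => exact absurd hv (by simp)
    | cons b v =>
      have hv' : u.length = v.length := by simpa using hv
      obtain ⟨h1, h2, h3⟩ := ih v hv' (fun a ha => hP a (by simp [ha]))
      obtain ⟨h4, h5⟩ := hg a b (hP a (by simp))
      refine ⟨by simp [h1], ?_, ?_⟩
      · intro x hx
        rw [zc_cons, List.mem_cons] at hx
        rcases hx with rfl | hx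
        · exact h4
        · exact h2 x hx
      · unfold HN at h3 ⊢
        rw [zc_cons, HV_cons, HV_cons, HV_cons, h3, h5, h1, ← hv']
        ring

/-- the homogeneous form of `∑ g_i (α X + β Y)^i` -/
noncomputable def conv (f : V → V → V) (g : V → V → ℕ → V) (z : V) (l : List V) : List V :=
  List.rec (motive := fun _ => List V) [] (fun c r ih => zc (g c) (ml f z ih z) (bin r.length)) l

@[simp] lemma conv_nil (f : V → V → V) (g : V → V → ℕ → V) (z : V) : conv f g z [] = [] := rfl
@[simp] lemma conv_cons (f : V → V → V) (g : V → V → ℕ → V) (z c : V) (r : List V) :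
    conv f g z (c :: r) = zc (g c) (ml f z (conv f g z r) z) (bin r.length) := rfl

lemma conv_spec {P : V → Prop} {E : V → ℝ} {f : V → V → V} {g : V → V → ℕ → V} {z : V} {α β : ℝ}
    (hf : Lin P E f α β) (hg : ∀ c x p, P c → P x → P (g c x p) ∧ E (g c x p) = E x + p * E c)
    (hz : P z) (hz0 : E z = 0) {X Y : ℝ} (hXY : X + Y = 1) (l : List V) (hl : ∀ a ∈ l, P a) :
    (conv f g z l).length = l.length ∧ (∀ a ∈ conv f g z l, P a) ∧
      HV E (conv f g z l) X Y = EV E l (α * X + β * Y) := by
  induction l with
  | nil => simp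
  | cons c r ih =>
    obtain ⟨h1, h2, h3⟩ := ih (fun a ha => hl a (by simp [ha]))
    have hc : P c := hl c (by simp)
    have hlen : (ml f z (conv f g z r) z).length = (bin r.length).length := by
      rw [length_ml, length_bin, h1]
    obtain ⟨h4, h5, h6⟩ := HV_zc (P := P) (E := E) (g := g c) (e := E c)
      (fun x p hx => hg c x p hc hx) X Y (ml f z (conv f g z r) z) (bin r.length) hlen
      (ml_mem hf hz h2 hz)
    refine ⟨?_, ?_, ?_⟩
    · rw [conv_cons, h4, length_ml, h1]; rfl
    · rw [conv_cons]; exact h5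
    · rw [conv_cons, h6, HV_ml hf hz hz0 h2 hz, h3, HN_bin, hXY, EV_cons, hz0]
      ring

end Gen

/-! ### Integer coefficients -/

/-- form with integer coefficients -/
noncomputable def HZ (l : List ℤ) (X Y : ℝ) : ℝ := HV (fun x : ℤ => (x : ℝ)) l X Y

/-- `(X - Y)` step -/
noncomputable def fm (a p : ℤ) : ℤ := a - p

/-- `X` step -/
noncomputable def fx (a _p : ℤ) : ℤ := a

/-- add a multiple -/
noncomputable def gz (c x : ℤ) (p : ℕ) : ℤ := x + p * c

lemma lin_fm : Lin (fun _ : ℤ => True) (fun x : ℤ => (x : ℝ)) fm 1 (-1) :=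
  ⟨fun _ _ _ _ => trivial, fun a p _ _ => by simp only [fm]; push_cast; ring⟩

lemma lin_fx : Lin (fun _ : ℤ => True) (fun x : ℤ => (x : ℝ)) fx 1 0 :=
  ⟨fun _ _ _ _ => trivial, fun a p _ _ => by simp only [fx]; ring⟩

lemma gz_spec (c x : ℤ) (p : ℕ) : ((gz c x p : ℤ) : ℝ) = (x : ℝ) + p * (c : ℝ) := by
  simp only [gz]; push_cast; ring

/-- `zipWith` for integers -/
noncomputable def vzz (g : ℤ → ℤ → ℤ) (u : List ℤ) : List ℤ → List ℤ :=
  List.rec (motive := fun _ => List ℤ → List ℤ) (fun _ => [])
    (fun a _ ih v => List.rec (motive := fun _ => List ℤ) [] (fun b t _ => g a b :: ih t) v) u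

@[simp] lemma vzz_cons (g : ℤ → ℤ → ℤ) (a b : ℤ) (u v : List ℤ) :
    vzz g (a :: u) (b :: v) = g a b :: vzz g u v := rfl

lemma vzz_spec {g : ℤ → ℤ → ℤ} {α β : ℝ} (hg : ∀ a b : ℤ, ((g a b : ℤ) : ℝ) = α * a + β * b)
    (X Y : ℝ) : ∀ (u v : List ℤ), u.length = v.length → (vzz g u v).length = u.length ∧
      HZ (vzz g u v) X Y = α * HZ u X Y + β * HZ v X Y := by
  intro u
  induction u with
  | nil =>
    intro v hv
    cases v with
    | nil => exact ⟨rfl, by simp [HZ, vzz]⟩
    | cons b v => exact absurd hv (by simp)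
  | cons a u ih =>
    intro v hv
    cases v with
    | nil => exact absurd hv (by simp)
    | cons b v =>
      have hv' : u.length = v.length := by simpa using hv
      obtain ⟨h1, h2⟩ := ih v hv'
      refine ⟨by simp [h1], ?_⟩
      unfold HZ at h2 ⊢
      rw [vzz_cons, HV_cons, HV_cons, HV_cons, h2, h1, hg, ← hv']
      ring

lemma vzz_lin {g : ℤ → ℤ → ℤ} {α β : ℝ} (hg : ∀ a b : ℤ, ((g a b : ℤ) : ℝ) = α * a + β * b) (m : ℕ)
    (X Y : ℝ) : Lin (fun u : List ℤ => u.length = m) (fun u => HZ u X Y) (vzz g) α β :=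
  ⟨fun u v hu hv => (vzz_spec hg X Y u v (hu.trans hv.symm)).1.trans hu,
    fun u v hu hv => (vzz_spec hg X Y u v (hu.trans hv.symm)).2⟩

/-- add a multiple, for rows -/
noncomputable def gv (c x : List ℤ) (p : ℕ) : List ℤ := vzz (fun a b => a + p * b) x c

lemma gv_spec (m : ℕ) (X Y : ℝ) (c x : List ℤ) (p : ℕ) (hc : c.length = m) (hx : x.length = m) :
    (gv c x p).length = m ∧ HZ (gv c x p) X Y = HZ x X Y + p * HZ c X Y := by
  have := vzz_spec (g := fun a b => a + p * b) (α := 1) (β := p)
    (fun a b => by push_cast; ring) X Y x c (hx.trans hc.symm)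
  exact ⟨this.1.trans hx, by rw [gv, this.2]; ring⟩

/-- map -/
noncomputable def mp {A B : Type} (h : A → B) (l : List A) : List B :=
  List.rec (motive := fun _ => List B) [] (fun a _ ih => h a :: ih) l

@[simp] lemma mp_nil {A B : Type} (h : A → B) : mp h [] = [] := rfl
@[simp] lemma mp_cons {A B : Type} (h : A → B) (a : A) (l : List A) : mp h (a :: l) = h a :: mp h l := rfl

lemma mp_eq {A B : Type} (h : A → B) (l : List A) : mp h l = l.map h := by
  induction l with
  | nil => rfl
  | cons a l ih => rw [mp_cons, ih]; rfl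

/-- two-dimensional conversion, `a = X - Y`, `b = S - T` -/
noncomputable def conv2 (f : ℤ → ℤ → ℤ) (z : List ℤ) (S : List (List ℤ)) : List (List ℤ) :=
  conv (vzz f) gv z (mp (conv f gz 0) S)

/-- evaluation of a table of coefficients -/
noncomputable def EV2 (S : List (List ℤ)) (a b : ℝ) : ℝ :=
  EV (fun r => EV (fun x : ℤ => (x : ℝ)) r b) S a

lemma conv2_spec {f : ℤ → ℤ → ℤ} {α β : ℝ} (hf : ∀ a b : ℤ, ((f a b : ℤ) : ℝ) = α * a + β * b)
    {z : List ℤ} (hz0 : ∀ X Y, HZ z X Y = 0) {S : List (List ℤ)}
    (hS : ∀ r ∈ S, r.length = z.length) {X Y s t : ℝ} (hXY : X + Y = 1) (hst : s + t = 1) :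
    (conv2 f z S).length = S.length ∧ (∀ r ∈ conv2 f z S, r.length = z.length) ∧
      HV (fun u => HZ u s t) (conv2 f z S) X Y = EV2 S (α * X + β * Y) (α * s + β * t) := by
  have hfl : Lin (fun _ : ℤ => True) (fun x : ℤ => (x : ℝ)) f α β :=
    ⟨fun _ _ _ _ => trivial, fun a p _ _ => hf a p⟩
  have hin : ∀ r : List ℤ, (conv f gz 0 r).length = r.length ∧
      HZ (conv f gz 0 r) s t = EV (fun x : ℤ => (x : ℝ)) r (α * s + β * t) := by
    intro r
    have := conv_spec (P := fun _ : ℤ => True) (E := fun x : ℤ => (x : ℝ)) hfl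
      (g := gz) (fun c x p _ _ => ⟨trivial, gz_spec c x p⟩) (z := 0) trivial (by simp) hst r
      (fun _ _ => trivial)
    exact ⟨this.1, this.2.2⟩
  have hmem : ∀ r ∈ mp (conv f gz 0) S, r.length = z.length := by
    rw [mp_eq]
    intro r hr
    obtain ⟨r', hr', rfl⟩ := List.mem_map.1 hr
    rw [(hin r').1]
    exact hS r' hr'
  have h := conv_spec (P := fun u : List ℤ => u.length = z.length) (E := fun u => HZ u s t)
    (vzz_lin hf z.length s t) (g := gv)
    (fun c x p hc hx => gv_spec z.length s t c x p hc hx) (z := z) rfl (hz0 s t) hXY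
    (mp (conv f gz 0) S) hmem
  refine ⟨?_, h.2.1, ?_⟩
  · unfold conv2
    rw [h.1, mp_eq, List.length_map]
  · unfold conv2
    rw [h.2.2]
    unfold EV2
    rw [mp_eq]
    clear h hmem hS
    induction S with
    | nil => rfl
    | cons r S ih => rw [List.map_cons, EV_cons, EV_cons, ih, (hin r).2]

/-! ### Comparison with a natural matrix -/

/-- `a + M * b = u` entrywise -/
noncomputable def cmp1 (M : ℕ) (a : List ℤ) : List ℕ → List ℕ → Bool :=
  List.rec (motive := fun _ => List ℕ → List ℕ → Bool)
    (fun _ u => List.rec (motive := fun _ => Bool) true (fun _ _ _ => false) u)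
    (fun x _ ih b u => List.rec (motive := fun _ => Bool) false
      (fun c s _ => List.rec (motive := fun _ => Bool) false
        (fun (v : ℕ) (t : List ℕ) _ => cond (Int.beq' (x + (Nat.mul M c : ℕ)) (v : ℕ)) (ih s t) false) u) b) a

lemma cmp1_sound {M : ℕ} {a : List ℤ} {b u : List ℕ} (h : cmp1 M a b u = true)
    (hab : a.length = b.length) (X Y : ℝ) :
    u.length = a.length ∧ HZ a X Y + M * HN b X Y = HN u X Y := by
  induction a generalizing b u with
  | nil =>
    cases u with
    | nil =>
      cases b with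
      | nil => simp [HZ, HN]
      | cons c s => exact absurd hab (by simp)
    | cons v t => exact absurd h (by simp [cmp1])
  | cons x a ih =>
    cases b with
    | nil => exact absurd hab (by simp)
    | cons c s =>
      cases u with
      | nil => exact absurd h (by simp [cmp1])
      | cons v t =>
        have h' : cond (Int.beq' (x + (Nat.mul M c : ℕ)) v) (cmp1 M a s t) false = true := h
        cases hb : Int.beq' (x + (Nat.mul M c : ℕ)) v with
        | false => rw [hb] at h'; exact absurd h' (by simp)
        | true =>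
          rw [hb] at h'
          have hab' : a.length = s.length := by simpa using hab
          obtain ⟨h1, h2⟩ := ih h' hab'
          have h3 : x + ((M * c : ℕ) : ℤ) = v := by
            rw [Int.beq'_eq_beq] at hb
            exact eq_of_beq hb
          have h4 : (x : ℝ) + M * c = v := by exact_mod_cast h3
          refine ⟨by simp [h1], ?_⟩
          unfold HZ HN at h2 ⊢
          rw [HV_cons, HV_cons, HV_cons, ← h2, h1, ← hab', ← h4]
          ring

/-- the same for matrices: `A_i + M * b_i * c = U_i` -/
noncomputable def cmp2 (M : ℕ) (c : List ℕ) (A : List (List ℤ)) : List ℕ → List (List ℕ) → Bool :=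
  List.rec (motive := fun _ => List ℕ → List (List ℕ) → Bool)
    (fun _ U => List.rec (motive := fun _ => Bool) true (fun _ _ _ => false) U)
    (fun x _ ih b U => List.rec (motive := fun _ => Bool) false
      (fun d s _ => List.rec (motive := fun _ => Bool) false
        (fun v t _ => cond (cmp1 (Nat.mul M d) x c v) (ih s t) false) U) b) A

lemma cmp2_sound {M : ℕ} {c : List ℕ} {A : List (List ℤ)} {b : List ℕ} {U : List (List ℕ)}
    (h : cmp2 M c A b U = true) (hAb : A.length = b.length)
    (hc : ∀ r ∈ A, r.length = c.length) (X Y s t : ℝ) :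
    U.length = A.length ∧ (∀ u ∈ U, u.length = c.length) ∧
      HV (fun u => HZ u s t) A X Y + M * HN b X Y * HN c s t = HV (fun u => HN u s t) U X Y := by
  induction A generalizing b U with
  | nil =>
    cases U with
    | nil =>
      cases b with
      | nil => simp [HN]
      | cons d s => exact absurd hAb (by simp)
    | cons v t => exact absurd h (by simp [cmp2])
  | cons x A ih =>
    cases b with
    | nil => exact absurd hAb (by simp)
    | cons d b =>
      cases U with
      | nil => exact absurd h (by simp [cmp2])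
      | cons v U =>
        have h' : cond (cmp1 (Nat.mul M d) x c v) (cmp2 M c A b U) false = true := h
        cases hb : cmp1 (Nat.mul M d) x c v with
        | false => rw [hb] at h'; exact absurd h' (by simp)
        | true =>
          rw [hb] at h'
          have hAb' : A.length = b.length := by simpa using hAb
          obtain ⟨h1, h2, h3⟩ := ih h' hAb' (fun r hr => hc r (by simp [hr]))
          obtain ⟨h4, h5⟩ := cmp1_sound hb (hc x (by simp)) s t
          refine ⟨by simp [h1], ?_, ?_⟩
          · intro u hu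
            rcases List.mem_cons.1 hu with rfl | hu
            · rw [h4]; exact hc x (by simp)
            · exact h2 u hu
          · have e : HN (d :: b) X Y = d * X ^ b.length + Y * HN b X Y := by
              unfold HN; rw [HV_cons]
            have h5' : HZ x s t + ((M * d : ℕ) : ℝ) * HN c s t = HN v s t := h5
            rw [HV_cons, HV_cons, ← h3, h1, e, ← hAb', ← h5']
            push_cast
            ring

end Pool.Agent.Helper52.Chess
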