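import Mathlib
import Pool.Agent.Helper52.Chess.Wt

/-!
# Block CH-B: the weight of the cells met by a line of slope between 0 and 1

Coordinates `u, v ∈ [0, n]`, the line is `v = s u + κ`; put `l i = s i + κ`. The cell in column `i` and row `j` is
met only if `l i < j + 1` and `j < l (i+1)`. `ctr n i = (2 i + 1)/n - 1`.

Proof. Put `g u = G (2 u/n - 1) (2 (s u + κ)/n - 1)`, `l i = s i + κ` (nondecreasing in `i`).
(1) For every `i` the number of integers `j` with `l i - 1 < j < l (i+1)` is at most `2` (open interval of length `1 + s ≤ 2`).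
(2) Columns with `l i < 0 < l (i+1)` or `l i < n < l (i+1)`: at most two of them (monotonicity); each contributes at most
`2 L`: total `4 L`. Columns with `l (i+1) ≤ 0` or `n ≤ l i` contribute nothing (`0 ≤ j`, `j + 1 ≤ n`).
(3) The other columns (full columns: `0 ≤ l i`, `l (i+1) ≤ n`) form an interval `[p, q)` of integers. For a cell `(i, j)` met there
`|G (ctr n i) (ctr n j) - g i| ≤ 4 L/n`. The number of cells met in column `i` is at most
`N i = ⌈l (i+1)⌉ - ⌊l i⌋ = s + d (i+1) + e i`, `d i = ⌈l i⌉ - l i`, `e i = l i - ⌊l i⌋`, `d i + e i ≤ 1`. Hence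
`∑ N i * g i ≤ s ∑ g i + ∑ d (i+1) g (i+1) + ∑ |g i - g (i+1)| + ∑ e i g i ≤ (1 + s) ∑ g i + g q + ∑ |g i - g (i+1)|`
`≤ (1 + s) ∑_{p ≤ i < q} g i + L + 4 L`.
(4) `g i ≤ ∫_i^{i+1} g + 4 L/n`, so `(1 + s) ∑ g i ≤ (1 + s) ∫_p^q g + 8 L`, and by substitution `x = 2 u/n - 1` and the hypothesis
`hch`: `(1 + s) ∫_p^q g = (n/2) (1 + s) ∫ x in (2p/n-1)..(2q/n-1), G x (s x + k) ≤ n D`, `k = s + 2 κ/n - 1`.
Total: `n D + 8 L + 5 L + 8 L + 4 L`. (If `p ≥ q` only (2) remains; `0 ≤ n D`.)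
-/

set_option autoImplicit false

namespace Pool.Agent.Helper52.Chess

open Set MeasureTheory Finset

/-- the number of cells of a column met by the line -/
private lemma cnt (n : ℕ) {a b : ℝ} (hab : a ≤ b) :
    (((range n).filter (fun j : ℕ => a < (j : ℝ) + 1 ∧ (j : ℝ) < b)).card : ℝ) ≤ (⌈b⌉ : ℝ) - ⌊a⌋ := by
  have h1 : ((range n).filter (fun j : ℕ => a < (j : ℝ) + 1 ∧ (j : ℝ) < b)).card
      ≤ (Finset.Ico ⌊a⌋ ⌈b⌉).card := by
    apply Finset.card_le_card_of_injOn (fun j : ℕ => (j : ℤ))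
    · intro j hj
      have hj' := (Finset.mem_filter.mp (Finset.mem_coe.mp hj)).2
      obtain ⟨h1, h2⟩ := hj'
      simp only [Finset.coe_Ico, Set.mem_Ico]
      constructor
      · have : ⌊a⌋ < (j : ℤ) + 1 := by
          rw [Int.floor_lt]; push_cast; exact h1
        omega
      · rw [Int.lt_ceil]; push_cast; exact h2
    · intro x _ y _ h
      have h' : (x : ℤ) = (y : ℤ) := h
      exact_mod_cast h'
  have h2 : ⌊a⌋ ≤ ⌈b⌉ := (Int.floor_le_ceil a).trans (Int.ceil_le_ceil hab)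
  have h3 : ((Finset.Ico ⌊a⌋ ⌈b⌉).card : ℤ) = ⌈b⌉ - ⌊a⌋ := by
    rw [Int.card_Ico, Int.toNat_of_nonneg (by omega)]
  have h4 : ((Finset.Ico ⌊a⌋ ⌈b⌉).card : ℝ) = (⌈b⌉ : ℝ) - ⌊a⌋ := by
    have := congrArg (fun z : ℤ => (z : ℝ)) h3
    push_cast at this
    exact this
  rw [← h4]
  exact_mod_cast h1

private lemma cnt2 (n : ℕ) {a b : ℝ} (hab : a ≤ b) (hb : b ≤ a + 1) :
    (((range n).filter (fun j : ℕ => a < (j : ℝ) + 1 ∧ (j : ℝ) < b)).card : ℝ) ≤ 2 := by
  refine (cnt n hab).trans ?_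
  have h1 : ⌈b⌉ ≤ ⌈a⌉ + 1 := by
    have := Int.ceil_le_ceil hb
    rwa [Int.ceil_add_one] at this
  have h2 := Int.ceil_le_floor_add_one a
  have h3 : ⌈b⌉ ≤ ⌊a⌋ + 2 := by omega
  have h4 : (⌈b⌉ : ℝ) ≤ ⌊a⌋ + 2 := by exact_mod_cast h3
  linarith

private lemma col_eq (n i : ℕ) (G : ℝ → ℝ → ℝ) (a b : ℝ) :
    ∑ j ∈ range n, (if a < (j : ℝ) + 1 ∧ (j : ℝ) < b then G (ctr n i) (ctr n j) else 0)
      = ∑ j ∈ (range n).filter (fun j : ℕ => a < (j : ℝ) + 1 ∧ (j : ℝ) < b), G (ctr n i) (ctr n j) := by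
  rw [Finset.sum_filter]

private lemma ctr_mem {n i : ℕ} (hi : i < n) : ctr n i ∈ Set.Icc (-1 : ℝ) 1 := by
  have hn : (0 : ℝ) < n := by
    have : 0 < n := by omega
    exact_mod_cast this
  have hi' : (i : ℝ) + 1 ≤ n := by exact_mod_cast hi
  have hi0 : (0 : ℝ) ≤ i := Nat.cast_nonneg i
  unfold ctr
  constructor
  · have : 0 ≤ (2 * (i : ℝ) + 1) / n := by positivity
    linarith
  · have : (2 * (i : ℝ) + 1) / n ≤ 2 := by
      rw [div_le_iff₀ hn]; linarith
    linarith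

/-- a column has weight at most `2 L` -/
private lemma col_le {G : ℝ → ℝ → ℝ} {L : ℝ} (hL : 0 ≤ L)
    (hb : ∀ x ∈ Set.Icc (-1 : ℝ) 1, ∀ y ∈ Set.Icc (-1 : ℝ) 1, G x y ≤ L)
    {n i : ℕ} (hi : i < n) {a b : ℝ} (hab : a ≤ b) (hab' : b ≤ a + 1) :
    ∑ j ∈ range n, (if a < (j : ℝ) + 1 ∧ (j : ℝ) < b then G (ctr n i) (ctr n j) else 0) ≤ 2 * L := by
  rw [col_eq]
  have h1 := Finset.sum_le_card_nsmul ((range n).filter (fun j : ℕ => a < (j : ℝ) + 1 ∧ (j : ℝ) < b))
    (fun j => G (ctr n i) (ctr n j)) L (by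
      intro j hj
      rw [Finset.mem_filter, Finset.mem_range] at hj
      exact hb _ (ctr_mem hi) _ (ctr_mem hj.1))
  refine h1.trans ?_
  rw [nsmul_eq_mul]
  exact mul_le_mul_of_nonneg_right (cnt2 n hab hab') hL

/-- the point of the square above the abscissa `u` -/
private lemma pt_mem {n : ℕ} (hn : 1 ≤ n) {w : ℝ} (h0 : 0 ≤ w) (h1 : w ≤ n) :
    2 * w / n - 1 ∈ Set.Icc (-1 : ℝ) 1 := by
  have hn : (0 : ℝ) < n := by
    have : 0 < n := by omega
    exact_mod_cast this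
  constructor
  · have : 0 ≤ 2 * w / n := by positivity
    linarith
  · have : 2 * w / n ≤ 2 := by
      rw [div_le_iff₀ hn]; linarith
    linarith

/-- a full column -/
private lemma col_full {G : ℝ → ℝ → ℝ} {L : ℝ} (hL : 0 ≤ L)
    (hnn : ∀ x ∈ Set.Icc (-1 : ℝ) 1, ∀ y ∈ Set.Icc (-1 : ℝ) 1, 0 ≤ G x y)
    (hlip : ∀ x ∈ Set.Icc (-1 : ℝ) 1, ∀ y ∈ Set.Icc (-1 : ℝ) 1, ∀ x' ∈ Set.Icc (-1 : ℝ) 1,
      ∀ y' ∈ Set.Icc (-1 : ℝ) 1, |G x y - G x' y'| ≤ L * (|x - x'| + |y - y'|))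
    {n i : ℕ} (hn : 1 ≤ n) (hi : i < n) {a b : ℝ} (hab : a ≤ b) (hab' : b ≤ a + 1) (ha0 : 0 ≤ a) (han : a ≤ n) :
    ∑ j ∈ range n, (if a < (j : ℝ) + 1 ∧ (j : ℝ) < b then G (ctr n i) (ctr n j) else 0)
      ≤ ((⌈b⌉ : ℝ) - ⌊a⌋) * G (2 * (i : ℝ) / n - 1) (2 * a / n - 1) + 8 * L / n := by
  have hn0 : (0 : ℝ) < n := by
    have : 0 < n := by omega
    exact_mod_cast this
  have hiR : (i : ℝ) ≤ n := by exact_mod_cast hi.le
  have hpi := pt_mem hn (Nat.cast_nonneg i) hiR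
  have hpa := pt_mem hn ha0 han
  rw [col_eq]
  have h1 := Finset.sum_le_card_nsmul ((range n).filter (fun j : ℕ => a < (j : ℝ) + 1 ∧ (j : ℝ) < b))
    (fun j => G (ctr n i) (ctr n j)) (G (2 * (i : ℝ) / n - 1) (2 * a / n - 1) + 4 * L / n) (by
      intro j hj
      rw [Finset.mem_filter, Finset.mem_range] at hj
      obtain ⟨hj, hj1, hj2⟩ := hj
      have h := hlip _ (ctr_mem hi) _ (ctr_mem hj) _ hpi _ hpa
      have e1 : ctr n i - (2 * (i : ℝ) / n - 1) = 1 / n := by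
        unfold ctr; ring
      have e2 : ctr n j - (2 * a / n - 1) = (2 * (j : ℝ) + 1 - 2 * a) / n := by
        unfold ctr; ring
      rw [e1, e2, abs_div, abs_div, abs_of_pos hn0, abs_one, ← add_div] at h
      have h3 : |2 * (j : ℝ) + 1 - 2 * a| ≤ 3 := by
        rw [abs_le]; constructor <;> linarith
      have h4 : L * ((1 + |2 * (j : ℝ) + 1 - 2 * a|) / n) ≤ 4 * L / n := by
        rw [← mul_div_assoc]
        apply div_le_div_of_nonneg_right _ hn0.le
        nlinarith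
      have h5 := (abs_le.mp (h.trans h4)).2
      show G (ctr n i) (ctr n j) ≤ _
      linarith)
  refine h1.trans ?_
  rw [nsmul_eq_mul, mul_add]
  have h2 := mul_le_mul_of_nonneg_right (cnt n (a := a) (b := b) hab) (hnn _ hpi _ hpa)
  have h3 := mul_le_mul_of_nonneg_right (cnt2 n (a := a) (b := b) hab hab')
    (show 0 ≤ 4 * L / (n : ℝ) by positivity)
  have e3 : 2 * (4 * L / (n : ℝ)) = 8 * L / n := by ring
  linarith

/-- the full columns -/
private lemma full_le {G : ℝ → ℝ → ℝ} {D L : ℝ} (hL : 0 ≤ L)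
    (hcont : Continuous (fun p : ℝ × ℝ => G p.1 p.2))
    (hnn : ∀ x ∈ Set.Icc (-1 : ℝ) 1, ∀ y ∈ Set.Icc (-1 : ℝ) 1, 0 ≤ G x y)
    (hb : ∀ x ∈ Set.Icc (-1 : ℝ) 1, ∀ y ∈ Set.Icc (-1 : ℝ) 1, G x y ≤ L)
    (hlip : ∀ x ∈ Set.Icc (-1 : ℝ) 1, ∀ y ∈ Set.Icc (-1 : ℝ) 1, ∀ x' ∈ Set.Icc (-1 : ℝ) 1,
      ∀ y' ∈ Set.Icc (-1 : ℝ) 1, |G x y - G x' y'| ≤ L * (|x - x'| + |y - y'|))
    (hch : ∀ s k x0 x1 : ℝ, 0 ≤ s → s ≤ 1 → -1 ≤ x0 → x0 ≤ x1 → x1 ≤ 1 → -1 ≤ s * x0 + k →
      s * x1 + k ≤ 1 → (1 + s) * ∫ x in x0..x1, G x (s * x + k) ≤ 2 * D)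
    {n : ℕ} (hn : 1 ≤ n) {s κ : ℝ} (hs0 : 0 ≤ s) (hs1 : s ≤ 1) {p q : ℕ} (hpq : p ≤ q) (hqn : q ≤ n)
    (hp : 0 ≤ s * p + κ) (hq : s * q + κ ≤ n) :
    ∑ i ∈ Finset.Ico p q, ∑ j ∈ range n, (if s * i + κ < j + 1 ∧ (j : ℝ) < s * (i + 1) + κ then
      G (ctr n i) (ctr n j) else 0) ≤ n * D + 21 * L := by
  have hn0 : (0 : ℝ) < n := by
    have : 0 < n := by omega
    exact_mod_cast this
  set l : ℝ → ℝ := fun u => s * u + κ with hl
  have lmono : ∀ u v : ℝ, u ≤ v → l u ≤ l v := by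
    intro u v huv
    simp only [hl]
    nlinarith
  set g : ℝ → ℝ := fun u => G (2 * u / n - 1) (2 * l u / n - 1) with hg
  have hqnR : (q : ℝ) ≤ n := by exact_mod_cast hqn
  have hp0 : (0 : ℝ) ≤ p := Nat.cast_nonneg p
  -- points of the range
  have mem1 : ∀ u : ℝ, (p : ℝ) ≤ u → u ≤ q → 2 * u / n - 1 ∈ Set.Icc (-1 : ℝ) 1 := by
    intro u h1 h2
    exact pt_mem hn (by linarith) (by linarith)
  have mem2 : ∀ u : ℝ, (p : ℝ) ≤ u → u ≤ q → 2 * l u / n - 1 ∈ Set.Icc (-1 : ℝ) 1 := by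
    intro u h1 h2
    refine pt_mem hn ?_ ?_
    · exact hp.trans (lmono _ _ h1)
    · exact (lmono _ _ h2).trans hq
  have gnn : ∀ u : ℝ, (p : ℝ) ≤ u → u ≤ q → 0 ≤ g u := fun u h1 h2 =>
    hnn _ (mem1 u h1 h2) _ (mem2 u h1 h2)
  have gb : ∀ u : ℝ, (p : ℝ) ≤ u → u ≤ q → g u ≤ L := fun u h1 h2 =>
    hb _ (mem1 u h1 h2) _ (mem2 u h1 h2)
  have glip : ∀ u v : ℝ, (p : ℝ) ≤ u → u ≤ q → (p : ℝ) ≤ v → v ≤ q → |u - v| ≤ 1 →
      |g u - g v| ≤ 4 * L / n := by
    intro u v hu hu' hv hv' huv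
    have h := hlip _ (mem1 u hu hu') _ (mem2 u hu hu') _ (mem1 v hv hv') _ (mem2 v hv hv')
    refine h.trans ?_
    have e1 : (2 * u / n - 1) - (2 * v / n - 1) = 2 * (u - v) / n := by ring
    have e2 : (2 * l u / n - 1) - (2 * l v / n - 1) = 2 * (s * (u - v)) / n := by
      simp only [hl]; ring
    rw [e1, e2, abs_div, abs_div, abs_of_pos hn0, ← add_div, ← mul_div_assoc]
    apply div_le_div_of_nonneg_right _ hn0.le
    rw [abs_mul, abs_mul, abs_mul, abs_of_nonneg hs0, abs_two]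
    have h5 : s * |u - v| ≤ 1 := by
      have := abs_nonneg (u - v)
      nlinarith
    nlinarith
  have gcont : Continuous g := by
    have h1 : Continuous (fun u : ℝ => ((2 * u / n - 1, 2 * (s * u + κ) / n - 1) : ℝ × ℝ)) := by fun_prop
    exact hcont.comp h1
  -- the count
  set d : ℕ → ℝ := fun i => (⌈l i⌉ : ℝ) - l i with hd
  set e : ℕ → ℝ := fun i => l i - ⌊l i⌋ with he
  have hd0 : ∀ i, 0 ≤ d i := by
    intro i
    have := Int.le_ceil (l i)
    simp only [hd]; linarith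
  have hd1 : ∀ i, d i ≤ 1 := by
    intro i
    have := Int.ceil_lt_add_one (l i)
    simp only [hd]; linarith
  have hde : ∀ i, d i + e i ≤ 1 := by
    intro i
    have h := Int.ceil_le_floor_add_one (l i)
    have h' : (⌈l i⌉ : ℝ) ≤ ⌊l i⌋ + 1 := by exact_mod_cast h
    simp only [hd, he]; linarith
  have step1 : ∀ i ∈ Finset.Ico p q, (∑ j ∈ range n, (if s * i + κ < j + 1 ∧ (j : ℝ) < s * (i + 1) + κ then
      G (ctr n i) (ctr n j) else 0)) ≤ (s + d i + e i) * g i + (d (i + 1) * g ((i + 1 : ℕ) : ℝ) - d i * g i)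
        + 12 * L / n := by
    intro i hi
    rw [Finset.mem_Ico] at hi
    have hiR : (p : ℝ) ≤ i := by exact_mod_cast hi.1
    have hiq : ((i + 1 : ℕ) : ℝ) ≤ q := by exact_mod_cast hi.2
    have hcast : ((i + 1 : ℕ) : ℝ) = (i : ℝ) + 1 := by push_cast; ring
    have hi1 : (i : ℝ) ≤ q := by rw [hcast] at hiq; linarith
    have hi2 : (p : ℝ) ≤ ((i + 1 : ℕ) : ℝ) := by rw [hcast]; linarith
    have h1 := col_full (G := G) hL hnn hlip hn (i := i) (by omega) (a := s * i + κ) (b := s * (i + 1) + κ)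
      (by nlinarith) (by nlinarith) (hp.trans (lmono _ _ hiR)) ((lmono _ _ hi1).trans hq)
    refine h1.trans ?_
    have e1 : (⌈s * ((i : ℝ) + 1) + κ⌉ : ℝ) - ⌊s * (i : ℝ) + κ⌋ = s + d (i + 1) + e i := by
      simp only [hd, he, hl]
      rw [hcast]
      ring
    rw [e1]
    change (s + d (i + 1) + e i) * g i + 8 * L / n ≤ _
    have h2 := (abs_le.mp (glip i ((i + 1 : ℕ) : ℝ) hiR hi1 hi2 hiq (by
      rw [hcast]; rw [abs_le]; constructor <;> linarith))).2
    have h3 : 0 ≤ 4 * L / (n : ℝ) := by positivity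
    have h4 : d (i + 1) * (g i - g ((i + 1 : ℕ) : ℝ)) ≤ 4 * L / n := by
      have a1 := hd0 (i + 1)
      have a2 := hd1 (i + 1)
      calc d (i + 1) * (g i - g ((i + 1 : ℕ) : ℝ)) ≤ d (i + 1) * (4 * L / n) :=
            mul_le_mul_of_nonneg_left h2 a1
        _ ≤ 1 * (4 * L / n) := mul_le_mul_of_nonneg_right a2 h3
        _ = _ := one_mul _
    have e4 : 12 * L / (n : ℝ) = 8 * L / n + 4 * L / n := by ring
    rw [e4]
    nlinarith
  have step2 : ∀ i ∈ Finset.Ico p q, (s + d i + e i) * g i ≤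
      (1 + s) * (∫ u in (i : ℝ)..((i + 1 : ℕ) : ℝ), g u) + 8 * L / n := by
    intro i hi
    rw [Finset.mem_Ico] at hi
    have hiR : (p : ℝ) ≤ i := by exact_mod_cast hi.1
    have hiq : ((i + 1 : ℕ) : ℝ) ≤ q := by exact_mod_cast hi.2
    have hcast : ((i + 1 : ℕ) : ℝ) = (i : ℝ) + 1 := by push_cast; ring
    have hi1 : (i : ℝ) ≤ q := by rw [hcast] at hiq; linarith
    have g0 := gnn i hiR hi1
    have h1 : (s + d i + e i) * g i ≤ (1 + s) * g i := by
      apply mul_le_mul_of_nonneg_right _ g0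
      have := hde i
      linarith
    have h2 : (∫ _ in (i : ℝ)..((i + 1 : ℕ) : ℝ), (g i - 4 * L / n)) ≤ ∫ u in (i : ℝ)..((i + 1 : ℕ) : ℝ), g u := by
      apply intervalIntegral.integral_mono_on (by rw [hcast]; linarith)
      · exact intervalIntegrable_const
      · exact gcont.intervalIntegrable _ _
      · intro u hu
        have hu1 := hu.1
        have hu2 := hu.2
        rw [hcast] at hu2
        have := (abs_le.mp (glip i u hiR hi1 (by linarith) (by rw [hcast] at hiq; linarith) (by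
          rw [abs_le]; constructor <;> linarith))).2
        linarith
    rw [intervalIntegral.integral_const, hcast] at h2
    rw [hcast]
    have e2 : ((i : ℝ) + 1 - i) • (g i - 4 * L / n) = g i - 4 * L / n := by
      rw [smul_eq_mul]; ring
    rw [e2] at h2
    have h3 : (1 + s) * (g i - 4 * L / n) ≤ (1 + s) * ∫ u in (i : ℝ)..((i : ℝ) + 1), g u :=
      mul_le_mul_of_nonneg_left h2 (by linarith)
    have h4 : 0 ≤ 4 * L / (n : ℝ) := by positivity
    have h5 : (1 + s) * (4 * L / (n : ℝ)) ≤ 8 * L / n := by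
      have : (1 + s) * (4 * L / (n : ℝ)) ≤ 2 * (4 * L / n) := mul_le_mul_of_nonneg_right (by linarith) h4
      have e : 2 * (4 * L / (n : ℝ)) = 8 * L / n := by ring
      linarith
    nlinarith
  have step3 : ∀ i ∈ Finset.Ico p q, (∑ j ∈ range n, (if s * i + κ < j + 1 ∧ (j : ℝ) < s * (i + 1) + κ then
      G (ctr n i) (ctr n j) else 0)) ≤ (1 + s) * (∫ u in (i : ℝ)..((i + 1 : ℕ) : ℝ), g u)
        + (d (i + 1) * g ((i + 1 : ℕ) : ℝ) - d i * g i) + 20 * L / n := by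
    intro i hi
    have h1 := step1 i hi
    have h2 := step2 i hi
    have e4 : 20 * L / (n : ℝ) = 8 * L / n + 12 * L / n := by ring
    rw [e4]
    linarith
  refine (Finset.sum_le_sum step3).trans ?_
  rw [Finset.sum_add_distrib, Finset.sum_add_distrib, ← Finset.mul_sum,
    Finset.sum_Ico_sub (fun i : ℕ => d i * g i) hpq,
    intervalIntegral.sum_integral_adjacent_intervals_Ico (a := fun i : ℕ => (i : ℝ)) hpq
      (fun k _ => gcont.intervalIntegrable _ _), Finset.sum_const, Nat.card_Ico]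
  have hpqR : (p : ℝ) ≤ q := by exact_mod_cast hpq
  -- the integral
  have hint : (1 + s) * (∫ u in (p : ℝ)..(q : ℝ), g u) ≤ n * D := by
    have hg2 : ∀ u : ℝ, g u = (fun x => G x (s * x + (s + 2 * κ / n - 1))) (2 / (n : ℝ) * u - 1) := by
      intro u
      simp only [hg, hl]
      congr 1
      · ring
      · field_simp; ring
    have e1 : (∫ u in (p : ℝ)..(q : ℝ), g u) = (n / 2 : ℝ) *
        ∫ x in (2 / (n : ℝ) * p - 1)..(2 / (n : ℝ) * q - 1), G x (s * x + (s + 2 * κ / n - 1)) := by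
      rw [intervalIntegral.integral_congr (g := fun u => (fun x => G x (s * x + (s + 2 * κ / n - 1)))
        (2 / (n : ℝ) * u - 1)) (fun u _ => hg2 u)]
      rw [intervalIntegral.integral_comp_mul_sub (fun x => G x (s * x + (s + 2 * κ / n - 1)))
        (by positivity : (2 / (n : ℝ)) ≠ 0)]
      rw [smul_eq_mul, inv_div]
    rw [e1]
    have m1 := mem1 p le_rfl hpqR
    have m2 := mem1 q hpqR le_rfl
    have m3 := mem2 p le_rfl hpqR
    have m4 := mem2 q hpqR le_rfl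
    have f1 : 2 / (n : ℝ) * p - 1 = 2 * p / n - 1 := by ring
    have f2 : 2 / (n : ℝ) * q - 1 = 2 * q / n - 1 := by ring
    have f3 : s * (2 / (n : ℝ) * p - 1) + (s + 2 * κ / n - 1) = 2 * l p / n - 1 := by
      simp only [hl]; ring
    have f4 : s * (2 / (n : ℝ) * q - 1) + (s + 2 * κ / n - 1) = 2 * l q / n - 1 := by
      simp only [hl]; ring
    have h := hch s (s + 2 * κ / n - 1) (2 / (n : ℝ) * p - 1) (2 / (n : ℝ) * q - 1) hs0 hs1
      (by rw [f1]; exact m1.1) (by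
        have : 2 / (n : ℝ) * p ≤ 2 / (n : ℝ) * q := mul_le_mul_of_nonneg_left hpqR (by positivity)
        linarith) (by rw [f2]; exact m2.2) (by rw [f3]; exact m3.1) (by rw [f4]; exact m4.2)
    have h' := mul_le_mul_of_nonneg_left h (show 0 ≤ (n / 2 : ℝ) by positivity)
    calc (1 + s) * ((n / 2 : ℝ) *
          ∫ x in (2 / (n : ℝ) * p - 1)..(2 / (n : ℝ) * q - 1), G x (s * x + (s + 2 * κ / n - 1)))
        = (n / 2 : ℝ) * ((1 + s) *
          ∫ x in (2 / (n : ℝ) * p - 1)..(2 / (n : ℝ) * q - 1), G x (s * x + (s + 2 * κ / n - 1))) := by ring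
      _ ≤ (n / 2 : ℝ) * (2 * D) := h'
      _ = n * D := by ring
  have hends : d q * g q - d p * g p ≤ L := by
    have a1 := gnn p le_rfl hpqR
    have a2 := gnn q hpqR le_rfl
    have a3 := gb q hpqR le_rfl
    have a4 := mul_nonneg (hd0 p) a1
    have a5 : d q * g q ≤ 1 * g q := mul_le_mul_of_nonneg_right (hd1 q) a2
    linarith
  have hlast : (q - p) • (20 * L / (n : ℝ)) ≤ 20 * L := by
    rw [nsmul_eq_mul, ← mul_div_assoc, div_le_iff₀ hn0]
    have h1 : ((q - p : ℕ) : ℝ) ≤ n := by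
      have : q - p ≤ n := by omega
      exact_mod_cast this
    nlinarith
  linarith

theorem line_le {G : ℝ → ℝ → ℝ} {D L : ℝ} (hD : 0 ≤ D) (hL : 0 ≤ L)
    (hcont : Continuous (fun p : ℝ × ℝ => G p.1 p.2))
    (hnn : ∀ x ∈ Set.Icc (-1 : ℝ) 1, ∀ y ∈ Set.Icc (-1 : ℝ) 1, 0 ≤ G x y)
    (hb : ∀ x ∈ Set.Icc (-1 : ℝ) 1, ∀ y ∈ Set.Icc (-1 : ℝ) 1, G x y ≤ L)
    (hlip : ∀ x ∈ Set.Icc (-1 : ℝ) 1, ∀ y ∈ Set.Icc (-1 : ℝ) 1, ∀ x' ∈ Set.Icc (-1 : ℝ) 1,
      ∀ y' ∈ Set.Icc (-1 : ℝ) 1, |G x y - G x' y'| ≤ L * (|x - x'| + |y - y'|))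
    (hch : ∀ s k x0 x1 : ℝ, 0 ≤ s → s ≤ 1 → -1 ≤ x0 → x0 ≤ x1 → x1 ≤ 1 → -1 ≤ s * x0 + k →
      s * x1 + k ≤ 1 → (1 + s) * ∫ x in x0..x1, G x (s * x + k) ≤ 2 * D)
    {n : ℕ} (hn : 1 ≤ n) {s κ : ℝ} (hs0 : 0 ≤ s) (hs1 : s ≤ 1) :
    ∑ i ∈ range n, ∑ j ∈ range n, (if s * i + κ < j + 1 ∧ (j : ℝ) < s * (i + 1) + κ then
      G (ctr n i) (ctr n j) else 0) ≤ n * D + 40 * L := by
  classical
  have hn0 : (0 : ℝ) < n := by
    have : 0 < n := by omega
    exact_mod_cast this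
  have lmono : ∀ u v : ℝ, u ≤ v → s * u + κ ≤ s * v + κ := by
    intro u v huv
    nlinarith
  set T : ℕ → ℝ := fun i => ∑ j ∈ range n, (if s * i + κ < j + 1 ∧ (j : ℝ) < s * (i + 1) + κ then
      G (ctr n i) (ctr n j) else 0) with hT
  change ∑ i ∈ range n, T i ≤ _
  set A : Finset ℕ := (range n).filter (fun i : ℕ => 0 ≤ s * i + κ ∧ s * (i + 1) + κ ≤ n) with hA
  set B : Finset ℕ := (range n).filter (fun i : ℕ => s * i + κ < 0 ∧ 0 < s * (i + 1) + κ) with hB
  set C : Finset ℕ := (range n).filter (fun i : ℕ => s * i + κ < n ∧ n < s * (i + 1) + κ) with hC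
  have hone : ∀ (S : Finset ℕ), (∀ i ∈ S, ∀ j ∈ S, i < j → False) → ((S.card : ℕ) : ℝ) ≤ 1 := by
    intro S hS
    have : S.card ≤ 1 := by
      rw [Finset.card_le_one]
      intro a ha b hb'
      rcases lt_trichotomy a b with h | h | h
      · exact (hS a ha b hb' h).elim
      · exact h
      · exact (hS b hb' a ha h).elim
    exact_mod_cast this
  have hcB : ((B.card : ℕ) : ℝ) ≤ 1 := by
    apply hone
    intro i hi j hj hij
    rw [hB, Finset.mem_filter] at hi hj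
    have h1 : (i : ℝ) + 1 ≤ j := by exact_mod_cast hij
    have := lmono _ _ h1
    linarith [hi.2.2, hj.2.1]
  have hcC : ((C.card : ℕ) : ℝ) ≤ 1 := by
    apply hone
    intro i hi j hj hij
    rw [hC, Finset.mem_filter] at hi hj
    have h1 : (i : ℝ) + 1 ≤ j := by exact_mod_cast hij
    have := lmono _ _ h1
    linarith [hi.2.2, hj.2.1]
  have hsplit : ∀ i ∈ range n, T i ≤ (if i ∈ A then T i else 0) + (if i ∈ B then 2 * L else 0)
      + (if i ∈ C then 2 * L else 0) := by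
    intro i hi
    have hin := Finset.mem_range.mp hi
    have hle : T i ≤ 2 * L := col_le hL hb hin (by nlinarith) (by nlinarith)
    by_cases hiA : i ∈ A
    · rw [if_pos hiA]
      have h1 : (0 : ℝ) ≤ if i ∈ B then 2 * L else 0 := by split_ifs <;> positivity
      have h2 : (0 : ℝ) ≤ if i ∈ C then 2 * L else 0 := by split_ifs <;> positivity
      linarith
    · rw [if_neg hiA]
      by_cases hiB : i ∈ B
      · rw [if_pos hiB]
        have h2 : (0 : ℝ) ≤ if i ∈ C then 2 * L else 0 := by split_ifs <;> positivity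
        linarith
      · rw [if_neg hiB]
        by_cases hiC : i ∈ C
        · rw [if_pos hiC]; linarith
        · rw [if_neg hiC]
          have hz : T i = 0 := by
            simp only [hT]
            apply Finset.sum_eq_zero
            intro j hj
            rw [if_neg]
            rintro ⟨h1, h2⟩
            have hjn : (j : ℝ) + 1 ≤ n := by exact_mod_cast Finset.mem_range.mp hj
            have hj0 : (0 : ℝ) ≤ j := Nat.cast_nonneg j
            rw [hA, Finset.mem_filter, not_and, not_and_or, not_le, not_le] at hiA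
            rw [hB, Finset.mem_filter, not_and, not_and_or, not_lt, not_lt] at hiB
            rw [hC, Finset.mem_filter, not_and, not_and_or, not_lt, not_lt] at hiC
            have a1 := hiA hi
            have a2 := hiB hi
            have a3 := hiC hi
            rcases a1 with a1 | a1
            · rcases a2 with a2 | a2 <;> linarith
            · rcases a3 with a3 | a3 <;> linarith
          rw [hz]; simp
  have hsum : ∑ i ∈ range n, T i ≤ ∑ i ∈ A, T i + 4 * L := by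
    refine (Finset.sum_le_sum hsplit).trans ?_
    rw [Finset.sum_add_distrib, Finset.sum_add_distrib]
    have e1 : ∑ i ∈ range n, (if i ∈ A then T i else 0) = ∑ i ∈ A, T i := by
      rw [← Finset.sum_filter]
      congr 1
      ext i
      rw [Finset.mem_filter, hA, Finset.mem_filter]
      tauto
    have e2 : ∀ S : Finset ℕ, S ⊆ range n → ((S.card : ℕ) : ℝ) ≤ 1 →
        ∑ i ∈ range n, (if i ∈ S then 2 * L else 0) ≤ 2 * L := by
      intro S hS hc
      rw [← Finset.sum_filter, Finset.filter_mem_eq_inter, Finset.inter_eq_right.mpr hS, Finset.sum_const,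
        nsmul_eq_mul]
      nlinarith
    have h2 := e2 B (Finset.filter_subset _ _) hcB
    have h3 := e2 C (Finset.filter_subset _ _) hcC
    rw [e1]
    linarith
  have hfull : ∑ i ∈ A, T i ≤ n * D + 21 * L := by
    rcases A.eq_empty_or_nonempty with hE | hE
    · rw [hE, Finset.sum_empty]; positivity
    · have hpA := A.min'_mem hE
      have hqA := A.max'_mem hE
      set p := A.min' hE with hp
      set q' := A.max' hE with hq'
      have hple : ∀ i ∈ A, p ≤ i := fun i hi => A.min'_le i hi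
      have hqle : ∀ i ∈ A, i ≤ q' := fun i hi => A.le_max' i hi
      have hpA' := hpA
      have hqA' := hqA
      rw [hA, Finset.mem_filter, Finset.mem_range] at hpA' hqA'
      have hAeq : A = Finset.Ico p (q' + 1) := by
        ext i
        rw [Finset.mem_Ico]
        constructor
        · intro hi
          exact ⟨hple i hi, by have := hqle i hi; omega⟩
        · rintro ⟨h1, h2⟩
          have h1R : (p : ℝ) ≤ i := by exact_mod_cast h1
          have h2R : (i : ℝ) + 1 ≤ q' + 1 := by exact_mod_cast h2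
          rw [hA, Finset.mem_filter, Finset.mem_range]
          refine ⟨by omega, ?_, ?_⟩
          · exact hpA'.2.1.trans (lmono _ _ h1R)
          · exact (lmono _ _ h2R).trans hqA'.2.2
      rw [hAeq]
      refine full_le hL hcont hnn hb hlip hch hn hs0 hs1 ?_ ?_ hpA'.2.1 ?_
      · have := hple q' hqA; omega
      · omega
      · have := hqA'.2.2
        push_cast
        exact this
  linarith

end Pool.Agent.Helper52.Chess
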