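import Mathlib
import Pool.Agent.Helper52.Chess.Wt
import Pool.Agent.Helper52.Chess.Board

/-!
# Block CH-D: reduction of an arbitrary line to slope between 0 and 1

Proof. The weights `G (ctr n i) (ctr n j)` are invariant under `i ↦ n - 1 - i` (`ctr n (n-1-i) = - ctr n i`, `ex`), `j ↦ n - 1 - j` (`ey`) and
`(i, j) ↦ (j, i)` (`sym`); the sum over all cells met by the line `(a, b, c)` is therefore the same for `(b, a, c)` (swap: reindex the
double sum with `Finset.sum_comm`), `(a, -b, c)` (reflection `y ↦ -y`: reindex `j` with `Fin.revPerm`) and of course `(-a, -b, -c)`. So we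
may assume `|a| ≤ |b|`, `b > 0`, `a ≤ 0`: slope `s = -a/b ∈ [0, 1]`. If `(x, y)` is a point of the line in the cell `(i, j)` put
`u = (x + 1) n/2 ∈ (i, i+1)`, `v = (y + 1) n/2 ∈ (j, j+1)`; then `v = s u + κ` with `κ = (n/2)(1 - s + c/b)`; hence `s i + κ ≤ v < j + 1` and
`j < v ≤ s (i+1) + κ`; (the strict inequalities `s i + κ < j + 1`, `j < s (i+1) + κ` follow). So the sum is at most the sum in `hline`
(the summands are `≥ 0` because `ctr n i ∈ [-1, 1]`).
Warning: with `0 ≤ s`, `s * i + κ ≤ s * u + κ = v < j + 1`. Fine also for `s = 0`.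
-/

set_option autoImplicit false

namespace Pool.Agent.Helper52.Chess

open Finset

private theorem rd_ctr_mem {n i : ℕ} (hi : i < n) : ctr n i ∈ Set.Icc (-1 : ℝ) 1 := by
  have hn : (0 : ℝ) < n := by exact_mod_cast (by omega : 0 < n)
  have h1 : (i : ℝ) + 1 ≤ n := by exact_mod_cast hi
  have h0 : (0 : ℝ) ≤ i := Nat.cast_nonneg i
  unfold ctr
  constructor
  · have : 0 ≤ (2 * (i : ℝ) + 1) / n := by positivity
    linarith
  · have : (2 * (i : ℝ) + 1) / n ≤ 2 := by
      rw [div_le_iff₀ hn]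
      linarith
    linarith

private theorem rd_neg {n : ℕ} (a b c : ℝ) (i j : Fin n) :
    Pierces (line (-a) (-b) (-c)) n i j ↔ Pierces (line a b c) n i j := by
  have h : line (-a) (-b) (-c) = line a b c := by
    ext p
    simp only [line, Set.mem_ofPred_eq]
    constructor <;> intro h <;> linarith
  rw [h]

private theorem rd_swap {n : ℕ} (a b c : ℝ) (i j : Fin n) :
    Pierces (line b a c) n j i ↔ Pierces (line a b c) n i j := by
  unfold Pierces
  constructor
  · rintro ⟨⟨x, y⟩, h1, h2, h3, h4, h5⟩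
    refine ⟨⟨y, x⟩, ?_, h4, h5, h2, h3⟩
    simp only [line, Set.mem_ofPred_eq] at h1 ⊢
    linarith
  · rintro ⟨⟨x, y⟩, h1, h2, h3, h4, h5⟩
    refine ⟨⟨y, x⟩, ?_, h4, h5, h2, h3⟩
    simp only [line, Set.mem_ofPred_eq] at h1 ⊢
    linarith

private theorem rd_rev_cast {n : ℕ} (j : Fin n) : (((Fin.rev j : Fin n) : ℕ) : ℝ) = n - 1 - j := by
  rw [Fin.val_rev, Nat.cast_sub (by omega)]
  push_cast
  ring

private theorem rd_refl_aux {n : ℕ} (a b c : ℝ) (i j : Fin n) (h : Pierces (line a b c) n i j) :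
    Pierces (line a (-b) c) n i (Fin.rev j) := by
  obtain ⟨⟨x, y⟩, h1, h2, h3, h4, h5⟩ := h
  have hn : (0 : ℝ) < n := by exact_mod_cast (by have := j.2; omega : 0 < n)
  refine ⟨⟨x, -y⟩, ?_, h2, h3, ?_, ?_⟩
  · simp only [line, Set.mem_ofPred_eq] at h1 ⊢
    linarith
  · rw [rd_rev_cast]
    simp only at h5 ⊢
    have e : -1 + 2 * ((n : ℝ) - 1 - (j : ℕ)) / n = -(-1 + 2 * (((j : ℕ) : ℝ) + 1) / n) := by
      field_simp
      ring
    rw [e]
    linarith
  · rw [rd_rev_cast]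
    simp only at h4 ⊢
    have e : -1 + 2 * ((n : ℝ) - 1 - (j : ℕ) + 1) / n = -(-1 + 2 * ((j : ℕ) : ℝ) / n) := by
      field_simp
      ring
    rw [e]
    linarith

private theorem rd_refl {n : ℕ} (a b c : ℝ) (i j : Fin n) :
    Pierces (line a (-b) c) n i (Fin.rev j) ↔ Pierces (line a b c) n i j := by
  constructor
  · intro h
    have h1 := rd_refl_aux _ _ _ _ _ h
    rwa [neg_neg, Fin.rev_rev] at h1
  · exact rd_refl_aux _ _ _ _ _

open Classical in
private noncomputable def rdS (G : ℝ → ℝ → ℝ) (n : ℕ) (a b c : ℝ) : ℝ :=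
  ∑ i : Fin n, ∑ j : Fin n, (if Pierces (line a b c) n i j then G (ctr n i) (ctr n j) else 0)

private theorem rdS_neg (G : ℝ → ℝ → ℝ) (n : ℕ) (a b c : ℝ) : rdS G n (-a) (-b) (-c) = rdS G n a b c := by
  classical
  unfold rdS
  refine Finset.sum_congr rfl fun i _ => Finset.sum_congr rfl fun j _ => ?_
  rw [if_congr (rd_neg a b c i j) rfl rfl]

private theorem rdS_swap {G : ℝ → ℝ → ℝ} (hsym : ∀ x y, G x y = G y x) (n : ℕ) (a b c : ℝ) :
    rdS G n b a c = rdS G n a b c := by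
  classical
  unfold rdS
  rw [Finset.sum_comm]
  refine Finset.sum_congr rfl fun i _ => Finset.sum_congr rfl fun j _ => ?_
  rw [if_congr (rd_swap a b c i j) rfl rfl, hsym]

private theorem rdS_refl {G : ℝ → ℝ → ℝ} (hey : ∀ x y, G x (-y) = G x y) (n : ℕ) (a b c : ℝ) :
    rdS G n a (-b) c = rdS G n a b c := by
  classical
  unfold rdS
  refine Finset.sum_congr rfl fun i _ => ?_
  rw [← Equiv.sum_comp Fin.revPerm]
  refine Finset.sum_congr rfl fun j _ => ?_
  rw [Fin.revPerm_apply, if_congr (rd_refl a b c i j) rfl rfl]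
  have hn : (n : ℝ) ≠ 0 := by
    have := j.2
    exact_mod_cast (by omega : n ≠ 0)
  have e : ctr n (Fin.rev j) = -ctr n j := by
    unfold ctr
    rw [rd_rev_cast]
    field_simp
    ring
  rw [e, hey]

private theorem rd_core {G : ℝ → ℝ → ℝ} {D C : ℝ}
    (hnn : ∀ x ∈ Set.Icc (-1 : ℝ) 1, ∀ y ∈ Set.Icc (-1 : ℝ) 1, 0 ≤ G x y)
    {n : ℕ} (hn : 1 ≤ n)
    (hline : ∀ s κ : ℝ, 0 ≤ s → s ≤ 1 →
      ∑ i ∈ range n, ∑ j ∈ range n, (if s * i + κ < j + 1 ∧ (j : ℝ) < s * (i + 1) + κ then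
        G (ctr n i) (ctr n j) else 0) ≤ n * D + C)
    {a b c : ℝ} (hb : 0 < b) (ha : a ≤ 0) (hab : -a ≤ b) : rdS G n a b c ≤ n * D + C := by
  classical
  have hn0 : (0 : ℝ) < n := by exact_mod_cast (by omega : 0 < n)
  have hs0 : 0 ≤ -a / b := div_nonneg (by linarith) hb.le
  have hs1 : -a / b ≤ 1 := by
    rw [div_le_one hb]
    exact hab
  obtain ⟨κ, hκ⟩ : ∃ κ, κ = (n / 2 : ℝ) * (1 - (-a / b) + c / b) := ⟨_, rfl⟩
  refine le_trans ?_ (hline (-a / b) κ hs0 hs1)
  rw [Finset.sum_range]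
  unfold rdS
  refine Finset.sum_le_sum fun i _ => ?_
  rw [Finset.sum_range]
  refine Finset.sum_le_sum fun j _ => ?_
  by_cases h : Pierces (line a b c) n i j
  · have h' : (-a / b) * ((i : ℕ) : ℝ) + κ < ((j : ℕ) : ℝ) + 1 ∧ ((j : ℕ) : ℝ) < (-a / b) * (((i : ℕ) : ℝ) + 1) + κ := by
      obtain ⟨⟨x, y⟩, h1, h2, h3, h4, h5⟩ := h
      simp only [line, Set.mem_ofPred_eq] at h1
      simp only at h2 h3 h4 h5
      have e2 : ((i : ℕ) : ℝ) < (x + 1) * n / 2 := by
        have : 2 * ((i : ℕ) : ℝ) / n < x + 1 := by linarith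
        rw [div_lt_iff₀ hn0] at this
        linarith
      have e3 : (x + 1) * n / 2 < ((i : ℕ) : ℝ) + 1 := by
        have : x + 1 < 2 * (((i : ℕ) : ℝ) + 1) / n := by linarith
        rw [lt_div_iff₀ hn0] at this
        linarith
      have e4 : ((j : ℕ) : ℝ) < (y + 1) * n / 2 := by
        have : 2 * ((j : ℕ) : ℝ) / n < y + 1 := by linarith
        rw [div_lt_iff₀ hn0] at this
        linarith
      have e5 : (y + 1) * n / 2 < ((j : ℕ) : ℝ) + 1 := by
        have : y + 1 < 2 * (((j : ℕ) : ℝ) + 1) / n := by linarith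
        rw [lt_div_iff₀ hn0] at this
        linarith
      have e6 : (y + 1) * n / 2 = (-a / b) * ((x + 1) * n / 2) + κ := by
        rw [hκ]
        have : y = (c - a * x) / b := by
          field_simp
          linarith
        rw [this]
        field_simp
        ring
      have e7 := mul_le_mul_of_nonneg_left e2.le hs0
      have e8 := mul_le_mul_of_nonneg_left e3.le hs0
      constructor <;> linarith
    rw [if_pos h, if_pos h']
  · rw [if_neg h]
    split_ifs
    · exact hnn _ (rd_ctr_mem i.2) _ (rd_ctr_mem j.2)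
    · exact le_rfl

private theorem rd_half {G : ℝ → ℝ → ℝ} {D C : ℝ} (hey : ∀ x y, G x (-y) = G x y)
    (hnn : ∀ x ∈ Set.Icc (-1 : ℝ) 1, ∀ y ∈ Set.Icc (-1 : ℝ) 1, 0 ≤ G x y)
    {n : ℕ} (hn : 1 ≤ n)
    (hline : ∀ s κ : ℝ, 0 ≤ s → s ≤ 1 →
      ∑ i ∈ range n, ∑ j ∈ range n, (if s * i + κ < j + 1 ∧ (j : ℝ) < s * (i + 1) + κ then
        G (ctr n i) (ctr n j) else 0) ≤ n * D + C)
    {a b c : ℝ} (hb : b ≠ 0) (hab : |a| ≤ |b|) : rdS G n a b c ≤ n * D + C := by
  rcases lt_or_gt_of_ne hb with hb | hb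
  · rw [abs_of_neg hb] at hab
    rcases le_total a 0 with ha | ha
    · rw [abs_of_nonpos ha] at hab
      rw [← rdS_refl hey]
      exact rd_core hnn hn hline (by linarith) ha hab
    · rw [abs_of_nonneg ha] at hab
      rw [← rdS_neg]
      exact rd_core hnn hn hline (by linarith) (by linarith) (by linarith)
  · rw [abs_of_pos hb] at hab
    rcases le_total a 0 with ha | ha
    · rw [abs_of_nonpos ha] at hab
      exact rd_core hnn hn hline hb ha hab
    · rw [abs_of_nonneg ha] at hab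
      rw [← rdS_refl hey, ← rdS_neg, neg_neg]
      exact rd_core hnn hn hline hb (by linarith) (by linarith)

open Classical in
theorem pierce_le {G : ℝ → ℝ → ℝ} {D C : ℝ}
    (hex : ∀ x y, G (-x) y = G x y) (hey : ∀ x y, G x (-y) = G x y) (hsym : ∀ x y, G x y = G y x)
    (hnn : ∀ x ∈ Set.Icc (-1 : ℝ) 1, ∀ y ∈ Set.Icc (-1 : ℝ) 1, 0 ≤ G x y)
    {n : ℕ} (hn : 1 ≤ n)
    (hline : ∀ s κ : ℝ, 0 ≤ s → s ≤ 1 →
      ∑ i ∈ range n, ∑ j ∈ range n, (if s * i + κ < j + 1 ∧ (j : ℝ) < s * (i + 1) + κ then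
        G (ctr n i) (ctr n j) else 0) ≤ n * D + C)
    {a b c : ℝ} (hab : ¬ (a = 0 ∧ b = 0)) :
    ∑ i : Fin n, ∑ j : Fin n, (if Pierces (line a b c) n i j then G (ctr n i) (ctr n j) else 0) ≤
      n * D + C := by
  have key : rdS G n a b c ≤ n * D + C := by
    rcases le_total |a| |b| with h | h
    · have hb : b ≠ 0 := by
        rintro rfl
        rw [abs_zero] at h
        exact hab ⟨abs_eq_zero.mp (le_antisymm h (abs_nonneg a)), rfl⟩
      exact rd_half hey hnn hn hline hb h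
    · have ha : a ≠ 0 := by
        rintro rfl
        rw [abs_zero] at h
        exact hab ⟨rfl, abs_eq_zero.mp (le_antisymm h (abs_nonneg b))⟩
      rw [← rdS_swap hsym]
      exact rd_half hey hnn hn hline ha h
  unfold rdS at key
  convert key

end Pool.Agent.Helper52.Chess
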