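import Pool.Agent.Helper52.Chess.Prop
import Pool.Agent.Helper52.Chess.LineB
import Pool.Agent.Helper52.Chess.Red

/-!
# The lower bound
-/

set_option autoImplicit false

namespace Pool.Agent.Helper52.Chess

open Finset

lemma ctr_mem {n i : ℕ} (hn : 1 ≤ n) (hi : i < n) : ctr n i ∈ Set.Icc (-1 : ℝ) 1 := by
  have hn0 : (0 : ℝ) < n := by exact_mod_cast hn
  have hi' : (i : ℝ) + 1 ≤ n := by exact_mod_cast hi
  have hi0 : (0 : ℝ) ≤ i := Nat.cast_nonneg i
  unfold ctr
  constructor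
  · have : 0 ≤ (2 * (i : ℝ) + 1) / n := by positivity
    linarith
  · have : (2 * (i : ℝ) + 1) / n ≤ 2 := by
      rw [div_le_iff₀ hn0]; linarith
    linarith

open Classical in
theorem one_line {n : ℕ} (hn : 1 ≤ n) {a b c : ℝ} (hab : ¬ (a = 0 ∧ b = 0)) :
    ∑ i : Fin n, ∑ j : Fin n, (if Pierces (line a b c) n i j then F (ctr n i) (ctr n j) else 0) ≤
      n * (DD : ℝ) + 40 * LL :=
  pierce_le F_ex F_ey F_sym F_nonneg hn (fun s κ hs0 hs1 =>
    line_le (by unfold DD; norm_num) LL_nonneg F_cont F_nonneg F_bound F_lip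
      (fun s k x0 x1 h1 h2 h3 h4 h5 h6 h7 => chord_le F_base h1 h2 h3 h4 h5 h6 h7) hn hs0 hs1) hab

theorem lower_bound : ∃ C : ℝ, 0 ≤ C ∧ ∀ n : ℕ, 1 ≤ n → ∀ (K : ℕ) (a b c : Fin K → ℝ),
    (∀ l, ¬ (a l = 0 ∧ b l = 0)) →
    (∀ i j : Fin n, ∃ l, Pierces (line (a l) (b l) (c l)) n i j) →
    (7503 / 10000 : ℝ) * n - C ≤ K := by
  classical
  obtain ⟨C, hC, hmass⟩ := mass_ge
  have hDD : (0 : ℝ) < DD := by unfold DD; norm_num
  have hLL := LL_nonneg
  refine ⟨(C + 40 * LL) / DD, by positivity, fun n hn K a b c hne hall => ?_⟩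
  have hn0 : (0 : ℝ) < n := by exact_mod_cast hn
  have hC' : 0 ≤ (C + 40 * LL) / DD := by positivity
  rcases le_or_gt n K with hK | hK
  · have h1 : (n : ℝ) ≤ K := by exact_mod_cast hK
    linarith
  have hK' : (K : ℝ) ≤ n := by exact_mod_cast hK.le
  have h1 : ∑ i : Fin n, ∑ j : Fin n, F (ctr n i) (ctr n j) ≤ K * (n * (DD : ℝ) + 40 * LL) := by
    calc ∑ i : Fin n, ∑ j : Fin n, F (ctr n i) (ctr n j)
        ≤ ∑ i : Fin n, ∑ j : Fin n, ∑ l : Fin K,
            (if Pierces (line (a l) (b l) (c l)) n i j then F (ctr n i) (ctr n j) else 0) := by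
          refine Finset.sum_le_sum fun i _ => Finset.sum_le_sum fun j _ => ?_
          obtain ⟨l, hl⟩ := hall i j
          have h0 : 0 ≤ F (ctr n i) (ctr n j) := F_nonneg _ (ctr_mem hn i.2) _ (ctr_mem hn j.2)
          have h2 := Finset.single_le_sum (f := fun l : Fin K =>
            (if Pierces (line (a l) (b l) (c l)) n i j then F (ctr n i) (ctr n j) else 0))
            (fun l _ => by split_ifs; exacts [h0, le_rfl]) (Finset.mem_univ l)
          rwa [if_pos hl] at h2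
      _ = ∑ l : Fin K, ∑ i : Fin n, ∑ j : Fin n,
            (if Pierces (line (a l) (b l) (c l)) n i j then F (ctr n i) (ctr n j) else 0) := by
          rw [Finset.sum_congr rfl fun i _ => Finset.sum_comm]
          exact Finset.sum_comm
      _ ≤ ∑ l : Fin K, (n * (DD : ℝ) + 40 * LL) :=
          Finset.sum_le_sum fun l _ => one_line hn (hne l)
      _ = K * (n * (DD : ℝ) + 40 * LL) := by
          rw [Finset.sum_const, Finset.card_univ, Fintype.card_fin, nsmul_eq_mul]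
  have h2 : ∑ i : Fin n, ∑ j : Fin n, F (ctr n i) (ctr n j) =
      ∑ i ∈ range n, ∑ j ∈ range n, F (ctr n i) (ctr n j) := by
    rw [← Fin.sum_univ_eq_sum_range (fun i => ∑ j ∈ range n, F (ctr n i) (ctr n j)) n]
    refine Finset.sum_congr rfl fun i _ => ?_
    rw [← Fin.sum_univ_eq_sum_range (fun j => F (ctr n i) (ctr n j)) n]
  have h3 := hmass n hn
  have h4 : (n : ℝ) ^ 2 * ((7503 / 10000 : ℝ) * DD) ≤ (n : ℝ) ^ 2 * muF :=
    mul_le_mul_of_nonneg_left muF_ge (by positivity)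
  have h5 : (K : ℝ) * (40 * LL) ≤ n * (40 * LL) := mul_le_mul_of_nonneg_right hK' (by positivity)
  have h6 : n * ((7503 / 10000 : ℝ) * n * DD) ≤ n * (K * DD + (C + 40 * LL)) := by nlinarith
  have h7 := le_of_mul_le_mul_left h6 hn0
  have h8 : (C + 40 * LL) / DD * DD = C + 40 * LL := div_mul_cancel₀ _ hDD.ne'
  have h9 : ((7503 / 10000 : ℝ) * n) * DD ≤ (K + (C + 40 * LL) / DD) * DD := by
    rw [add_mul, h8]; linarith
  have h10 := le_of_mul_le_mul_right h9 hDD
  linarith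

end Pool.Agent.Helper52.Chess
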