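import Pool.Agent.Helper52.Chess.K1

/-!
# The left-right chord inequality: the kernel check, second half
-/

set_option autoImplicit false

namespace Pool.Agent.Helper52.Chess

theorem U1_r : chk2 (2 ^ 21) b21 10 (2 ^ 21) b21 (List.replicate 22 0)
    (.node (.node .leaf .leaf) (.node .leaf .leaf))
    (Nat.mul (2 ^ 21) 580357769899824709797734) (TR (vz Nat.add) (vz f2) (List.replicate 22 0) U1) = true := by decide +kernel

theorem U1_chk : chk2 (2 ^ 21) b21 10 (2 ^ 21) b21 (List.replicate 22 0)
    (.node (.node (.node (.node .leaf .leaf) .leaf) (.node .leaf (.node .leaf .leaf))) (.node (.node .leaf .leaf) (.node .leaf .leaf)))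
    580357769899824709797734 U1 = true := chk2_node U1_l U1_r

end Pool.Agent.Helper52.Chess
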