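import Pool.Agent.Helper52.Chess.K2b

/-!
# The left-top chord inequality: the kernel check, part c
-/

set_option autoImplicit false

namespace Pool.Agent.Helper52.Chess

theorem U2_c : chk2 (2 ^ 21) b21 10 (2 ^ 21) b21 (List.replicate 22 0)
    (.node (.node .leaf .leaf) (.node .leaf .leaf))
    (Nat.mul (2 ^ 21) (Nat.mul (2 ^ 21) 1500563375605319644524069)) (TL (vz Nat.add) (vz f2) (List.replicate 22 0) (TR (vz Nat.add) (vz f2) (List.replicate 22 0) U2)) = true := by decide +kernel

end Pool.Agent.Helper52.Chess
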