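import Pool.Agent.Helper52.Chess.K2c

/-!
# The left-top chord inequality: the kernel check, part d
-/

set_option autoImplicit false

namespace Pool.Agent.Helper52.Chess

theorem U2_d : chk2 (2 ^ 21) b21 10 (2 ^ 21) b21 (List.replicate 22 0)
    (.node (.node .leaf .leaf) (.node .leaf .leaf))
    (Nat.mul (2 ^ 21) (Nat.mul (2 ^ 21) 1500563375605319644524069)) (TR (vz Nat.add) (vz f2) (List.replicate 22 0) (TR (vz Nat.add) (vz f2) (List.replicate 22 0) U2)) = true := by decide +kernel

theorem U2_chk : chk2 (2 ^ 21) b21 10 (2 ^ 21) b21 (List.replicate 22 0)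
    (.node (.node (.node .leaf .leaf) (.node .leaf (.node .leaf .leaf))) (.node (.node (.node .leaf .leaf) (.node .leaf .leaf)) (.node (.node .leaf .leaf) (.node .leaf .leaf))))
    1500563375605319644524069 U2 = true :=
  chk2_node (chk2_node U2_a U2_b) (chk2_node U2_c U2_d)

end Pool.Agent.Helper52.Chess
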