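import Pool.Agent.Helper52.Chess.Tab
import Pool.Agent.Helper52.Chess.Wt

/-!
# Nonnegativity of the weight: the kernel check
-/

set_option autoImplicit false

namespace Pool.Agent.Helper52.Chess

/-- the shifted form of `ctab` -/
def UF : List (List ℕ) := [
  [69025041, 690346242, 3104391437, 8293327896, 14473140338, 17406843212, 14508960914, 8263824664, 3114631933, 688618114, 69140449],
  [690346242, 6893804252, 31190546530, 82300344016, 145061316740, 176569441064, 140421148756, 85674015696, 30274680634, 7002755932, 688806538],
  [3104391437, 31190546530, 138290397841, 373599781016, 685911061578, 675640077708, 772378318874, 316559886232, 151576166505, 30046978018, 3121913237],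
  [8293327896, 82300344016, 373599781016, 1066843650496, 1254810863664, 3131243074272, 825537035760, 1337418222016, 317845451960, 87178420944, 8215998584],
  [14473140338, 145061316740, 685911061578, 1254810863664, 5176990132228, 2968, 5677965367172, 938822436400, 754499287946, 136386922884, 14668964914],
  [17406843212, 176569441064, 675640077708, 3131243074272, 2968, 9622262653168, 501574710392, 2873352045792, 705430413212, 182713259048, 17170170236],
  [14508960914, 140421148756, 772378318874, 825537035760, 5677965367172, 501574710392, 4606205280228, 1440235724784, 667481863274, 140512258388, 14646795138],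
  [8263824664, 85674015696, 316559886232, 1337418222016, 938822436400, 2873352045792, 1440235724784, 1028415578560, 376748508600, 84024173520, 8237311864],
  [3114631933, 30274680634, 151576166505, 317845451960, 754499287946, 705430413212, 667481863274, 376748508600, 137770359545, 30973000890, 3112730541],
  [688618114, 7002755932, 30046978018, 87178420944, 136386922884, 182713259048, 140512258388, 84024173520, 30973000890, 6914059740, 689992202],
  [69140449, 688806538, 3121913237, 8215998584, 14668964914, 17170170236, 14646795138, 8237311864, 3112730541, 689992202, 69028137]]

/-- binomial row -/
def b10 : List ℕ := [1, 10, 45, 120, 210, 252, 210, 120, 45, 10, 1]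

theorem bin10 : bin 10 = b10 := by decide +kernel

theorem ctab_shp : shp 11 11 ctab = true := by decide +kernel

theorem UF_cmp : cmp2 69024841 b10 (conv2 fx (List.replicate 11 0) ctab) b10 UF = true := by decide +kernel

theorem UF_chk : chk2 (2 ^ 10) b10 10 (2 ^ 10) b10 (List.replicate 11 0)
    (.node (.node (.node (.node (.node .leaf .leaf) .leaf) .leaf) .leaf) (.node .leaf (.node .leaf (.node .leaf .leaf)))) 69024841 UF = true := by decide +kernel

end Pool.Agent.Helper52.Chess
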