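import Mathlib
import Pool.Agent.Helper52.Chess.Wt

/-!
# Block CH-E: the total weight

`ctr n i = (2 i + 1)/n - 1`. Proof. For every `p` there is a constant `A` with `|∑_{i<n} (ctr n i)^p - (n/2) ∫_{-1}^1 x^p| ≤ A` (midpoint sums
of a function with Lipschitz constant `p` on `[-1,1]`; `A = 2 p` will do), and `∫_{-1}^1 x^(2P) = 2/(2P+1)`. So
`S_P = ∑_{i<n} (ctr n i)^(2P) = n/(2P+1) + O(1)`, `|S_P| ≤ n`, and `S_P S_Q = n²/((2P+1)(2Q+1)) + O(n)`. Finally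
`∑_{i,j} F (ctr n i) (ctr n j) = ∑_{P,Q} cc P Q * S_P * S_Q` (exchange the finite sums), a fixed finite linear combination.
-/

set_option autoImplicit false

namespace Pool.Agent.Helper52.Chess

open Finset

/-- a quarter of the integral of `F` over `[-1, 1]²` -/
noncomputable def muF : ℝ := ∑ P ∈ range 11, ∑ Q ∈ range 11, (cc P Q : ℝ) / ((2 * P + 1) * (2 * Q + 1))

private noncomputable def mSS (n P : ℕ) : ℝ := ∑ i ∈ range n, (ctr n i) ^ (2 * P)

private lemma m_ctr_mem (n i : ℕ) (hn : 1 ≤ n) (hi : i < n) : |ctr n i| ≤ 1 := by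
  have hn0 : (0 : ℝ) < n := by exact_mod_cast hn
  have hi' : (i : ℝ) + 1 ≤ n := by exact_mod_cast hi
  have hi0 : (0 : ℝ) ≤ i := Nat.cast_nonneg i
  unfold ctr
  rw [abs_le]
  constructor
  · have : (0 : ℝ) ≤ (2 * (i : ℝ) + 1) / n := by positivity
    linarith
  · have : (2 * (i : ℝ) + 1) / n ≤ 2 := by
      rw [div_le_iff₀ hn0]
      linarith
    linarith

private lemma m_cell (p n i : ℕ) (hn : 1 ≤ n) (hi : i < n) :
    |(n : ℝ) / (2 * (p + 1)) * ((2 * ((i : ℝ) + 1) / n - 1) ^ (p + 1) - (2 * (i : ℝ) / n - 1) ^ (p + 1)) -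
      (ctr n i) ^ p| ≤ p / n := by
  have hn0 : (0 : ℝ) < n := by exact_mod_cast hn
  have hi' : (i : ℝ) + 1 ≤ n := by exact_mod_cast hi
  have hi0 : (0 : ℝ) ≤ i := Nat.cast_nonneg i
  have hxa : |ctr n i| ≤ 1 := m_ctr_mem n i hn hi
  set a : ℝ := 2 * (i : ℝ) / n - 1 with ha
  set b : ℝ := 2 * ((i : ℝ) + 1) / n - 1 with hb
  have hba : b - a = 2 / n := by
    rw [ha, hb]; ring
  have hab : a < b := by
    have : (0 : ℝ) < 2 / n := by positivity
    linarith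
  have ha1 : -1 ≤ a := by
    have : (0 : ℝ) ≤ 2 * (i : ℝ) / n := by positivity
    linarith
  have hb1 : b ≤ 1 := by
    have : 2 * ((i : ℝ) + 1) / n ≤ 2 := by
      rw [div_le_iff₀ hn0]
      linarith
    linarith
  have hx : ctr n i = (a + b) / 2 := by
    rw [ha, hb]
    unfold ctr
    ring
  obtain ⟨c, hc, hcs⟩ := exists_hasDerivAt_eq_slope (fun x : ℝ => x ^ (p + 1))
    (fun x : ℝ => ((p + 1 : ℕ) : ℝ) * x ^ p) hab (by fun_prop)
    (fun x _ => by simpa using hasDerivAt_pow (p + 1) x)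
  have hc1 : |c| ≤ 1 := by
    rw [abs_le]
    exact ⟨by linarith [hc.1], by linarith [hc.2]⟩
  have hslope : (n : ℝ) / (2 * (p + 1)) * (b ^ (p + 1) - a ^ (p + 1)) = c ^ p := by
    have h1 : b ^ (p + 1) - a ^ (p + 1) = ((p + 1 : ℕ) : ℝ) * c ^ p * (b - a) := by
      have h2 : b - a ≠ 0 := by linarith
      rw [hcs]
      field_simp
    rw [h1, hba]
    push_cast
    have hp : ((p : ℝ) + 1) ≠ 0 := by positivity
    field_simp
  rw [hslope]
  have hdist : |c - ctr n i| ≤ 1 / n := by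
    rw [hx, abs_le]
    have h3 : (2 : ℝ) / n = 1 / n + 1 / n := by ring
    constructor
    · linarith [hc.1, hc.2]
    · linarith [hc.1, hc.2]
  refine (abs_pow_sub_pow_le c (ctr n i) p).trans ?_
  have hmax : max |c| |ctr n i| ^ (p - 1) ≤ 1 :=
    pow_le_one₀ (le_max_of_le_left (abs_nonneg _)) (max_le hc1 hxa)
  have h4 : |c - ctr n i| * p ≤ 1 / n * p := mul_le_mul_of_nonneg_right hdist (Nat.cast_nonneg p)
  calc |c - ctr n i| * p * max |c| |ctr n i| ^ (p - 1) ≤ |c - ctr n i| * p * 1 :=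
        mul_le_mul_of_nonneg_left hmax (by positivity)
    _ ≤ 1 / n * p := by rw [mul_one]; exact h4
    _ = p / n := by ring

private lemma m_SS (n P : ℕ) (hn : 1 ≤ n) : |mSS n P - n / (2 * P + 1)| ≤ 2 * P := by
  have hn0 : (0 : ℝ) < n := by exact_mod_cast hn
  have htel : ∑ i ∈ range n, (n : ℝ) / (2 * ((2 * P : ℕ) + 1)) *
      ((2 * ((i : ℝ) + 1) / n - 1) ^ (2 * P + 1) - (2 * (i : ℝ) / n - 1) ^ (2 * P + 1)) =
      n / (2 * P + 1) := by
    rw [← Finset.mul_sum]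
    have h := Finset.sum_range_sub (fun i : ℕ => (2 * (i : ℝ) / n - 1) ^ (2 * P + 1)) n
    push_cast at h
    rw [h]
    have e1 : (2 * (n : ℝ) / n - 1) = 1 := by
      field_simp
      norm_num
    have e2 : (2 * (0 : ℝ) / n - 1) = -1 := by simp
    rw [e1, e2, one_pow, Odd.neg_one_pow ⟨P, rfl⟩]
    push_cast
    have hp : (2 * (P : ℝ) + 1) ≠ 0 := by positivity
    field_simp
    ring
  rw [← htel, mSS, ← Finset.sum_sub_distrib]
  refine (Finset.abs_sum_le_sum_abs _ _).trans ?_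
  have hb : ∀ i ∈ range n, |(ctr n i) ^ (2 * P) - (n : ℝ) / (2 * ((2 * P : ℕ) + 1)) *
      ((2 * ((i : ℝ) + 1) / n - 1) ^ (2 * P + 1) - (2 * (i : ℝ) / n - 1) ^ (2 * P + 1))| ≤
      ((2 * P : ℕ) : ℝ) / n := by
    intro i hi
    rw [abs_sub_comm]
    exact m_cell (2 * P) n i hn (Finset.mem_range.mp hi)
  refine (Finset.sum_le_sum hb).trans ?_
  rw [Finset.sum_const, Finset.card_range, nsmul_eq_mul]
  push_cast
  apply le_of_eq
  field_simp

private lemma m_SS_le (n P : ℕ) (hn : 1 ≤ n) : |mSS n P| ≤ n := by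
  refine (Finset.abs_sum_le_sum_abs _ _).trans ?_
  have hb : ∀ i ∈ range n, |(ctr n i) ^ (2 * P)| ≤ 1 := by
    intro i hi
    rw [abs_pow]
    exact pow_le_one₀ (abs_nonneg _) (m_ctr_mem n i hn (Finset.mem_range.mp hi))
  refine (Finset.sum_le_sum hb).trans ?_
  rw [Finset.sum_const, Finset.card_range, nsmul_eq_mul, mul_one]

private lemma m_prod (n P Q : ℕ) (hn : 1 ≤ n) (hP : P ≤ 10) (hQ : Q ≤ 10) :
    |mSS n P * mSS n Q - (n : ℝ) ^ 2 / ((2 * (P : ℝ) + 1) * (2 * (Q : ℝ) + 1))| ≤ 40 * (n : ℝ) := by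
  have hn0 : (0 : ℝ) < n := by exact_mod_cast hn
  have hP' : (P : ℝ) ≤ 10 := by exact_mod_cast hP
  have hQ' : (Q : ℝ) ≤ 10 := by exact_mod_cast hQ
  have h1 := m_SS n P hn
  have h2 := m_SS n Q hn
  have h3 := m_SS_le n Q hn
  have h4 : |(n : ℝ) / (2 * P + 1)| ≤ n := by
    rw [abs_of_nonneg (by positivity)]
    apply div_le_self hn0.le
    have : (0 : ℝ) ≤ P := Nat.cast_nonneg P
    linarith
  have e : mSS n P * mSS n Q - (n : ℝ) ^ 2 / ((2 * P + 1) * (2 * Q + 1)) =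
      (mSS n P - n / (2 * P + 1)) * mSS n Q + n / (2 * P + 1) * (mSS n Q - n / (2 * Q + 1)) := by
    have hp : (2 * (P : ℝ) + 1) ≠ 0 := by positivity
    have hq : (2 * (Q : ℝ) + 1) ≠ 0 := by positivity
    field_simp
    ring
  rw [e]
  refine (abs_add_le _ _).trans ?_
  rw [abs_mul, abs_mul]
  have h5 : |mSS n P - n / (2 * P + 1)| * |mSS n Q| ≤ 20 * n :=
    mul_le_mul (by linarith) h3 (abs_nonneg _) (by norm_num)
  have h6 : |(n : ℝ) / (2 * P + 1)| * |mSS n Q - n / (2 * Q + 1)| ≤ n * 20 :=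
    mul_le_mul h4 (by linarith) (abs_nonneg _) hn0.le
  linarith

private lemma m_F_sum (n : ℕ) : ∑ i ∈ range n, ∑ j ∈ range n, F (ctr n i) (ctr n j) =
    ∑ P ∈ range 11, ∑ Q ∈ range 11, (cc P Q : ℝ) * (mSS n P * mSS n Q) := by
  unfold F mSS
  have h1 : ∀ i ∈ range n, ∑ j ∈ range n, ∑ P ∈ range 11, ∑ Q ∈ range 11,
      (cc P Q : ℝ) * (ctr n i) ^ (2 * P) * (ctr n j) ^ (2 * Q) =
      ∑ P ∈ range 11, ∑ Q ∈ range 11, ∑ j ∈ range n,
        (cc P Q : ℝ) * (ctr n i) ^ (2 * P) * (ctr n j) ^ (2 * Q) := by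
    intro i _
    rw [Finset.sum_comm]
    refine Finset.sum_congr rfl (fun P _ => ?_)
    rw [Finset.sum_comm]
  rw [Finset.sum_congr rfl h1, Finset.sum_comm]
  refine Finset.sum_congr rfl (fun P _ => ?_)
  rw [Finset.sum_comm]
  refine Finset.sum_congr rfl (fun Q _ => ?_)
  rw [Finset.sum_mul_sum, Finset.mul_sum]
  refine Finset.sum_congr rfl (fun i _ => ?_)
  rw [Finset.mul_sum]
  refine Finset.sum_congr rfl (fun j _ => ?_)
  ring

theorem mass_ge : ∃ C : ℝ, 0 ≤ C ∧ ∀ n : ℕ, 1 ≤ n →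
    (n : ℝ) ^ 2 * muF - C * n ≤ ∑ i ∈ range n, ∑ j ∈ range n, F (ctr n i) (ctr n j) := by
  refine ⟨∑ P ∈ range 11, ∑ Q ∈ range 11, |(cc P Q : ℝ)| * 40, by positivity, ?_⟩
  intro n hn
  rw [m_F_sum, muF, Finset.mul_sum, Finset.sum_mul, ← Finset.sum_sub_distrib]
  refine Finset.sum_le_sum (fun P hP => ?_)
  rw [Finset.mul_sum, Finset.sum_mul, ← Finset.sum_sub_distrib]
  refine Finset.sum_le_sum (fun Q hQ => ?_)
  have hP' : P ≤ 10 := by have := Finset.mem_range.mp hP; omega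
  have hQ' : Q ≤ 10 := by have := Finset.mem_range.mp hQ; omega
  have h := m_prod n P Q hn hP' hQ'
  have h1 : |(cc P Q : ℝ) * (mSS n P * mSS n Q - (n : ℝ) ^ 2 / ((2 * P + 1) * (2 * Q + 1)))| ≤
      |(cc P Q : ℝ)| * (40 * n) := by
    rw [abs_mul]
    exact mul_le_mul_of_nonneg_left h (abs_nonneg _)
  have h2 := (abs_le.mp h1).1
  have e : (n : ℝ) ^ 2 * ((cc P Q : ℝ) / ((2 * P + 1) * (2 * Q + 1))) =
      (cc P Q : ℝ) * ((n : ℝ) ^ 2 / ((2 * P + 1) * (2 * Q + 1))) := by ring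
  rw [e]
  nlinarith [h2]

end Pool.Agent.Helper52.Chess
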