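import Pool.Agent.Helper52.Chess.KF
import Pool.Agent.Helper52.Chess.K2d
import Pool.Agent.Helper52.Chess.Chord
import Pool.Agent.Helper52.Chess.Mass

/-!
# Properties of the weight
-/

set_option autoImplicit false

namespace Pool.Agent.Helper52.Chess

open Finset

lemma F_cont : Continuous (fun p : ℝ × ℝ => F p.1 p.2) := by
  unfold F
  fun_prop

lemma F_ex (x y : ℝ) : F (-x) y = F x y := by
  unfold F
  refine Finset.sum_congr rfl fun P _ => Finset.sum_congr rfl fun Q _ => ?_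
  rw [pow_mul (-x), neg_sq, ← pow_mul]

lemma F_ey (x y : ℝ) : F x (-y) = F x y := by
  unfold F
  refine Finset.sum_congr rfl fun P _ => Finset.sum_congr rfl fun Q _ => ?_
  rw [pow_mul (-y), neg_sq, ← pow_mul]

lemma cc_symm_chk : eqT 11 11 cc (fun P Q => cc Q P) = true := by decide +kernel

lemma F_sym (x y : ℝ) : F x y = F y x := by
  unfold F
  rw [Finset.sum_comm]
  refine Finset.sum_congr rfl fun P hP => Finset.sum_congr rfl fun Q hQ => ?_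
  rw [Finset.mem_range] at hP hQ
  rw [eqT_sound cc_symm_chk Q hQ P hP]
  ring

lemma F_nonneg : ∀ x ∈ Set.Icc (-1 : ℝ) 1, ∀ y ∈ Set.Icc (-1 : ℝ) 1, 0 ≤ F x y := by
  intro x hx y hy
  have hsq : ∀ t ∈ Set.Icc (-1 : ℝ) 1, t ^ 2 ∈ Set.Icc (0 : ℝ) 1 := by
    intro t ht
    exact ⟨sq_nonneg t, by nlinarith [ht.1, ht.2]⟩
  have h := nonneg_of_chk' (N := 10) (S := ctab) (U := UF) bin10 ctab_shp
    (fun X Y => HZ_replicate 11 X Y) (by simp) (fun X Y => HN_replicate 11 X Y) (by simp)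
    UF_cmp UF_chk (hsq x hx) (hsq y hy)
  rw [EV2_eq ctab_shp] at h
  have e : F x y = ∑ i ∈ range 11, ∑ j ∈ range 11, (ent ctab i j : ℝ) * (x ^ 2) ^ i * (y ^ 2) ^ j := by
    unfold F
    refine Finset.sum_congr rfl fun P _ => Finset.sum_congr rfl fun Q _ => ?_
    rw [pow_mul, pow_mul]
    rfl
  rw [e]
  exact h

lemma S1_nonneg {a b : ℝ} (ha : a ∈ Set.Icc (-1 : ℝ) 1) (hb : b ∈ Set.Icc (-1 : ℝ) 1) :
    0 ≤ EV2 S1 a b :=
  nonneg_of_chk (N := 21) (S := S1) (U := U1) bin21 S1_shp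
    (fun X Y => HZ_replicate 22 X Y) (by simp) (fun X Y => HN_replicate 22 X Y) (by simp)
    U1_cmp U1_chk ha hb

lemma S2_nonneg {a b : ℝ} (ha : a ∈ Set.Icc (-1 : ℝ) 1) (hb : b ∈ Set.Icc (-1 : ℝ) 1) :
    0 ≤ EV2 S2 a b :=
  nonneg_of_chk (N := 21) (S := S2) (U := U2) bin21 S2_shp
    (fun X Y => HZ_replicate 22 X Y) (by simp) (fun X Y => HN_replicate 22 X Y) (by simp)
    U2_cmp U2_chk ha hb

lemma key {S R : List (List ℤ)} {r : ℕ → ℕ → ℤ} (hS : shp 22 22 S = true) (hR : shp 21 21 R = true)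
    (h1 : eqT 21 21 r (ent R) = true)
    (h2 : eqT 22 22 (ss (2 * (DD : ℤ) * (Lam : ℤ)) R) (ent S) = true) (a b I : ℝ)
    (hI : (Lam : ℝ) * I = ∑ i ∈ range 21, ∑ j ∈ range 21, (r i j : ℝ) * a ^ i * b ^ j)
    (h0 : 0 ≤ EV2 S a b) : (2 + b - a) * I ≤ 2 * (DD : ℝ) := by
  rw [EV2_eq hS] at h0
  have e1 : ∑ i ∈ range 22, ∑ j ∈ range 22, (ent S i j : ℝ) * a ^ i * b ^ j =
      ∑ i ∈ range (21 + 1), ∑ j ∈ range (21 + 1),
        (ss (2 * (DD : ℤ) * (Lam : ℤ)) R i j : ℝ) * a ^ i * b ^ j := by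
    refine Finset.sum_congr rfl fun i hi => Finset.sum_congr rfl fun j hj => ?_
    rw [Finset.mem_range] at hi hj
    rw [eqT_sound h2 i hi j hj]
  rw [e1, ss_sum hR] at h0
  have e2 : ∑ i ∈ range 21, ∑ j ∈ range 21, (ent R i j : ℝ) * a ^ i * b ^ j =
      ∑ i ∈ range 21, ∑ j ∈ range 21, (r i j : ℝ) * a ^ i * b ^ j := by
    refine Finset.sum_congr rfl fun i hi => Finset.sum_congr rfl fun j hj => ?_
    rw [Finset.mem_range] at hi hj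
    rw [eqT_sound h1 i hi j hj]
  rw [e2, ← hI] at h0
  push_cast at h0
  have hL : (0 : ℝ) < Lam := by unfold Lam; norm_num
  have h3 : (Lam : ℝ) * ((2 + b - a) * I) ≤ Lam * (2 * (DD : ℝ)) := by linarith
  exact le_of_mul_le_mul_left h3 hL

theorem F_base : Base F (DD : ℝ) where
  cont := F_cont
  ex := F_ex
  ey := F_ey
  sym := F_sym
  nonneg := F_nonneg
  lr := by
    intro a ha b hb
    exact key S1_shp R1_shp R1_ok S1_ok a b _ (chord1 a b) (S1_nonneg ha hb)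
  lt := by
    intro a ha b hb
    exact key S2_shp R2_shp R2_ok S2_ok a b _ (chord2 a b) (S2_nonneg ha hb)

/-! ### Bounds -/

/-- a Lipschitz constant -/
noncomputable def LL : ℝ := ∑ P ∈ range 11, ∑ Q ∈ range 11, |(cc P Q : ℝ)| * (20 + 1)

lemma LL_nonneg : 0 ≤ LL := by
  unfold LL
  positivity

lemma abs_le_one_of {x : ℝ} (hx : x ∈ Set.Icc (-1 : ℝ) 1) : |x| ≤ 1 := abs_le.2 ⟨hx.1, hx.2⟩

lemma F_bound : ∀ x ∈ Set.Icc (-1 : ℝ) 1, ∀ y ∈ Set.Icc (-1 : ℝ) 1, F x y ≤ LL := by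
  intro x hx y hy
  unfold F LL
  refine Finset.sum_le_sum fun P _ => Finset.sum_le_sum fun Q _ => ?_
  have h1 : |x ^ (2 * P)| ≤ 1 := by
    rw [abs_pow]; exact pow_le_one₀ (abs_nonneg _) (abs_le_one_of hx)
  have h2 : |y ^ (2 * Q)| ≤ 1 := by
    rw [abs_pow]; exact pow_le_one₀ (abs_nonneg _) (abs_le_one_of hy)
  calc (cc P Q : ℝ) * x ^ (2 * P) * y ^ (2 * Q) ≤ |(cc P Q : ℝ) * x ^ (2 * P) * y ^ (2 * Q)| :=
        le_abs_self _
    _ = |(cc P Q : ℝ)| * |x ^ (2 * P)| * |y ^ (2 * Q)| := by rw [abs_mul, abs_mul]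
    _ ≤ |(cc P Q : ℝ)| * 1 * 1 := by gcongr
    _ ≤ _ := by
      have := abs_nonneg (cc P Q : ℝ)
      nlinarith

lemma pow_lip {x x' : ℝ} (hx : |x| ≤ 1) (hx' : |x'| ≤ 1) {n : ℕ} (hn : n ≤ 20) :
    |x ^ n - x' ^ n| ≤ 20 * |x - x'| := by
  have h := abs_pow_sub_pow_le x x' n
  have h1 : max |x| |x'| ^ (n - 1) ≤ 1 := pow_le_one₀ (le_max_of_le_left (abs_nonneg _)) (max_le hx hx')
  have h2 : (n : ℝ) ≤ 20 := by exact_mod_cast hn
  have h3 : 0 ≤ |x - x'| := abs_nonneg _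
  have h4 : 0 ≤ max |x| |x'| ^ (n - 1) := pow_nonneg (le_max_of_le_left (abs_nonneg _)) _
  have h5 : |x - x'| * n * max |x| |x'| ^ (n - 1) ≤ |x - x'| * 20 * 1 := by
    gcongr
  linarith

lemma F_lip : ∀ x ∈ Set.Icc (-1 : ℝ) 1, ∀ y ∈ Set.Icc (-1 : ℝ) 1, ∀ x' ∈ Set.Icc (-1 : ℝ) 1,
    ∀ y' ∈ Set.Icc (-1 : ℝ) 1, |F x y - F x' y'| ≤ LL * (|x - x'| + |y - y'|) := by
  intro x hx y hy x' hx' y' hy'
  unfold F LL
  rw [← Finset.sum_sub_distrib, Finset.sum_mul]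
  refine (Finset.abs_sum_le_sum_abs _ _).trans (Finset.sum_le_sum fun P hP => ?_)
  rw [← Finset.sum_sub_distrib, Finset.sum_mul]
  refine (Finset.abs_sum_le_sum_abs _ _).trans (Finset.sum_le_sum fun Q hQ => ?_)
  rw [Finset.mem_range] at hP hQ
  have h1 := pow_lip (abs_le_one_of hx) (abs_le_one_of hx') (n := 2 * P) (by omega)
  have h2 := pow_lip (abs_le_one_of hy) (abs_le_one_of hy') (n := 2 * Q) (by omega)
  have h3 : |y ^ (2 * Q)| ≤ 1 := by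
    rw [abs_pow]; exact pow_le_one₀ (abs_nonneg _) (abs_le_one_of hy)
  have h4 : |x' ^ (2 * P)| ≤ 1 := by
    rw [abs_pow]; exact pow_le_one₀ (abs_nonneg _) (abs_le_one_of hx')
  have e : (cc P Q : ℝ) * x ^ (2 * P) * y ^ (2 * Q) - (cc P Q : ℝ) * x' ^ (2 * P) * y' ^ (2 * Q) =
      (cc P Q : ℝ) * ((x ^ (2 * P) - x' ^ (2 * P)) * y ^ (2 * Q) +
        x' ^ (2 * P) * (y ^ (2 * Q) - y' ^ (2 * Q))) := by ring
  rw [e, abs_mul, mul_assoc]
  refine mul_le_mul_of_nonneg_left ?_ (abs_nonneg _)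
  have hx0 := abs_nonneg (x - x')
  have hy0 := abs_nonneg (y - y')
  calc |(x ^ (2 * P) - x' ^ (2 * P)) * y ^ (2 * Q) + x' ^ (2 * P) * (y ^ (2 * Q) - y' ^ (2 * Q))|
      ≤ |x ^ (2 * P) - x' ^ (2 * P)| * |y ^ (2 * Q)| + |x' ^ (2 * P)| * |y ^ (2 * Q) - y' ^ (2 * Q)| := by
        refine (abs_add_le _ _).trans ?_
        rw [abs_mul, abs_mul]
    _ ≤ (20 * |x - x'|) * 1 + 1 * (20 * |y - y'|) := by gcongr
    _ ≤ _ := by linarith

/-! ### The mean value -/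

/-- `lcm (1, 3, ..., 21)` -/
def Lo : ℕ := 14549535

lemma Lo_dvd : ∀ P < 11, (2 * P + 1) * (Lo / (2 * P + 1)) = Lo := by decide +kernel

lemma muF_chk : (7503 : ℤ) * DD * Lo * Lo ≤
    10000 * sm 11 (fun P => sm 11 (fun Q => cc P Q * ((Lo / (2 * P + 1) : ℕ) : ℤ) * ((Lo / (2 * Q + 1) : ℕ) : ℤ))) := by
  decide +kernel

theorem muF_ge : (7503 / 10000 : ℝ) * DD ≤ muF := by
  have h := muF_chk
  simp only [sm_eq] at h
  have hr : ((7503 : ℝ) * DD * Lo * Lo) ≤ 10000 * ∑ P ∈ range 11, ∑ Q ∈ range 11,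
      (cc P Q : ℝ) * ((Lo / (2 * P + 1) : ℕ) : ℝ) * ((Lo / (2 * Q + 1) : ℕ) : ℝ) := by
    have h' := (Int.cast_le (R := ℝ)).2 h
    push_cast at h' ⊢
    exact h'
  have hLo : (0 : ℝ) < Lo := by unfold Lo; norm_num
  have e : ∑ P ∈ range 11, ∑ Q ∈ range 11,
      (cc P Q : ℝ) * ((Lo / (2 * P + 1) : ℕ) : ℝ) * ((Lo / (2 * Q + 1) : ℕ) : ℝ) = muF * Lo * Lo := by
    unfold muF
    rw [Finset.sum_mul, Finset.sum_mul]
    refine Finset.sum_congr rfl fun P hP => ?_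
    rw [Finset.sum_mul, Finset.sum_mul]
    refine Finset.sum_congr rfl fun Q hQ => ?_
    rw [Finset.mem_range] at hP hQ
    have h1 : ((2 * P + 1 : ℕ) : ℝ) * ((Lo / (2 * P + 1) : ℕ) : ℝ) = Lo := by
      exact_mod_cast congrArg (Nat.cast (R := ℝ)) (Lo_dvd P hP)
    have h2 : ((2 * Q + 1 : ℕ) : ℝ) * ((Lo / (2 * Q + 1) : ℕ) : ℝ) = Lo := by
      exact_mod_cast congrArg (Nat.cast (R := ℝ)) (Lo_dvd Q hQ)
    have h3 : ((2 * P + 1 : ℕ) : ℝ) ≠ 0 := by positivity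
    have h4 : ((2 * Q + 1 : ℕ) : ℝ) ≠ 0 := by positivity
    have h5 : ((Lo / (2 * P + 1) : ℕ) : ℝ) = Lo / (2 * P + 1 : ℕ) := by
      rw [eq_div_iff h3, mul_comm]; exact h1
    have h6 : ((Lo / (2 * Q + 1) : ℕ) : ℝ) = Lo / (2 * Q + 1 : ℕ) := by
      rw [eq_div_iff h4, mul_comm]; exact h2
    rw [h5, h6]
    push_cast at h3 h4 ⊢
    field_simp
  rw [e] at hr
  have h7 : (7503 * (DD : ℝ)) * (Lo * Lo) ≤ (10000 * muF) * (Lo * Lo) := by linarith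
  have h8 := le_of_mul_le_mul_right h7 (by positivity)
  linarith

end Pool.Agent.Helper52.Chess
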