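import Pool.Agent.Helper52.Chess.Conv

/-!
# Tables of coefficients
-/

set_option autoImplicit false

namespace Pool.Agent.Helper52.Chess

open Finset

/-- `p 0, ..., p (n-1)` -/
noncomputable def allN (n : ℕ) (p : ℕ → Bool) : Bool :=
  Nat.rec (motive := fun _ => Bool) true (fun k ih => cond (p k) ih false) n

lemma allN_sound {n : ℕ} {p : ℕ → Bool} (h : allN n p = true) : ∀ k < n, p k = true := by
  induction n with
  | zero => intro k hk; omega
  | succ n ih =>
    have h' : cond (p n) (allN n p) false = true := h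
    cases hp : p n with
    | false => rw [hp] at h'; exact absurd h' (by simp)
    | true =>
      rw [hp] at h'
      intro k hk
      rcases Nat.lt_succ_iff_lt_or_eq.1 hk with hk | rfl
      · exact ih h' k hk
      · exact hp

/-- entry of a table -/
def ent (R : List (List ℤ)) (i j : ℕ) : ℤ := (R.getD i []).getD j 0

/-- comparison of two integer functions -/
noncomputable def eqT (n m : ℕ) (f g : ℕ → ℕ → ℤ) : Bool :=
  allN n (fun i => allN m (fun j => Int.beq' (f i j) (g i j)))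

lemma eqT_sound {n m : ℕ} {f g : ℕ → ℕ → ℤ} (h : eqT n m f g = true) :
    ∀ i < n, ∀ j < m, f i j = g i j := by
  intro i hi j hj
  have h1 := allN_sound (allN_sound h i hi) j hj
  rw [Int.beq'_eq_beq] at h1
  exact eq_of_beq h1

lemma EV_getD {V : Type} (E : V → ℝ) (d : V) (L : List V) (x : ℝ) :
    EV E L x = ∑ i ∈ range L.length, E (L.getD i d) * x ^ i := by
  induction L with
  | nil => simp
  | cons c L ih =>
    rw [EV_cons, ih, List.length_cons, Finset.sum_range_succ']
    simp only [List.getD_cons_succ, List.getD_cons_zero, pow_zero, mul_one]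
    rw [Finset.mul_sum, add_comm]
    congr 1
    refine Finset.sum_congr rfl fun i _ => ?_
    ring

/-- shape of a table -/
noncomputable def shp (n m : ℕ) (R : List (List ℤ)) : Bool :=
  cond (Nat.beq R.length n) (R.all (fun r => Nat.beq r.length m)) false

lemma shp_sound {n m : ℕ} {R : List (List ℤ)} (h : shp n m R = true) :
    R.length = n ∧ ∀ r ∈ R, r.length = m := by
  unfold shp at h
  cases h1 : Nat.beq R.length n with
  | false => rw [h1] at h; exact absurd h (by simp)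
  | true =>
    rw [h1] at h
    refine ⟨Nat.eq_of_beq_eq_true h1, fun r hr => ?_⟩
    have h2 : (R.all (fun r => Nat.beq r.length m)) = true := h
    rw [List.all_eq_true] at h2
    exact Nat.eq_of_beq_eq_true (h2 r hr)

lemma EV2_eq {n m : ℕ} {R : List (List ℤ)} (h : shp n m R = true) (a b : ℝ) :
    EV2 R a b = ∑ i ∈ range n, ∑ j ∈ range m, (ent R i j : ℝ) * a ^ i * b ^ j := by
  obtain ⟨h1, h2⟩ := shp_sound h
  unfold EV2
  rw [EV_getD _ [], h1]
  refine Finset.sum_congr rfl fun i hi => ?_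
  rw [Finset.mem_range] at hi
  have h3 : (R.getD i []).length = m := by
    have h4 : i < R.length := by omega
    rw [List.getD_eq_getElem _ _ h4]
    exact h2 _ (List.getElem_mem h4)
  rw [EV_getD _ 0, h3, Finset.sum_mul]
  refine Finset.sum_congr rfl fun j hj => ?_
  unfold ent
  ring

/-- the coefficients of `D2 - (2 + b - a) R(a, b)` -/
def ss (D2 : ℤ) (R : List (List ℤ)) (i j : ℕ) : ℤ :=
  (if i = 0 ∧ j = 0 then D2 else 0) - 2 * ent R i j - (if j = 0 then 0 else ent R i (j - 1)) +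
    (if i = 0 then 0 else ent R (i - 1) j)

lemma ss_sum {n m : ℕ} {R : List (List ℤ)} (h : shp n m R = true) (D2 : ℤ) (a b : ℝ) :
    ∑ i ∈ range (n + 1), ∑ j ∈ range (m + 1), (ss D2 R i j : ℝ) * a ^ i * b ^ j =
      D2 - (2 + b - a) * ∑ i ∈ range n, ∑ j ∈ range m, (ent R i j : ℝ) * a ^ i * b ^ j := by
  obtain ⟨h1, h2⟩ := shp_sound h
  have hn : ∀ j, ent R n j = 0 := by
    intro j
    unfold ent
    rw [List.getD_eq_default R [] (by omega)]
    simp
  have hm : ∀ i, ent R i m = 0 := by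
    intro i
    unfold ent
    by_cases hi : i < R.length
    · rw [List.getD_eq_getElem _ _ hi, List.getD_eq_default _ _ (by rw [h2 _ (List.getElem_mem hi)])]
    · rw [List.getD_eq_default R [] (by omega)]; simp
  have e1 : ∑ i ∈ range (n + 1), ∑ j ∈ range (m + 1),
      (((if i = 0 ∧ j = 0 then D2 else 0 : ℤ)) : ℝ) * a ^ i * b ^ j = D2 := by
    rw [Finset.sum_eq_single 0, Finset.sum_eq_single 0]
    · simp
    · intro j _ hj; simp [hj]
    · intro h0; exact absurd (Finset.mem_range.2 (Nat.succ_pos _)) h0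
    · intro i _ hi; exact Finset.sum_eq_zero fun j _ => by simp [hi]
    · intro h0; exact absurd (Finset.mem_range.2 (Nat.succ_pos _)) h0
  have e2 : ∑ i ∈ range (n + 1), ∑ j ∈ range (m + 1), (ent R i j : ℝ) * a ^ i * b ^ j =
      ∑ i ∈ range n, ∑ j ∈ range m, (ent R i j : ℝ) * a ^ i * b ^ j := by
    rw [Finset.sum_range_succ]
    simp only [hn, Int.cast_zero, zero_mul, Finset.sum_const_zero, add_zero]
    refine Finset.sum_congr rfl fun i _ => ?_
    rw [Finset.sum_range_succ]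
    simp only [hm, Int.cast_zero, zero_mul, add_zero]
  have e3 : ∑ i ∈ range (n + 1), ∑ j ∈ range (m + 1),
      (((if j = 0 then 0 else ent R i (j - 1) : ℤ)) : ℝ) * a ^ i * b ^ j =
      b * ∑ i ∈ range n, ∑ j ∈ range m, (ent R i j : ℝ) * a ^ i * b ^ j := by
    rw [Finset.sum_range_succ, Finset.mul_sum]
    have : ∑ j ∈ range (m + 1), (((if j = 0 then 0 else ent R n (j - 1) : ℤ)) : ℝ) * a ^ n * b ^ j = 0 := by
      refine Finset.sum_eq_zero fun j _ => ?_
      rw [hn]; simp
    rw [this, add_zero]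
    refine Finset.sum_congr rfl fun i _ => ?_
    rw [Finset.sum_range_succ', Finset.mul_sum]
    simp only [Nat.add_eq_zero_iff, one_ne_zero, and_false, if_false, Nat.add_sub_cancel, if_true,
      Int.cast_zero, zero_mul, add_zero]
    refine Finset.sum_congr rfl fun j _ => ?_
    ring
  have e4 : ∑ i ∈ range (n + 1), ∑ j ∈ range (m + 1),
      (((if i = 0 then 0 else ent R (i - 1) j : ℤ)) : ℝ) * a ^ i * b ^ j =
      a * ∑ i ∈ range n, ∑ j ∈ range m, (ent R i j : ℝ) * a ^ i * b ^ j := by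
    rw [Finset.sum_range_succ', Finset.mul_sum]
    simp only [Nat.add_eq_zero_iff, one_ne_zero, and_false, if_false, Nat.add_sub_cancel, if_true,
      Int.cast_zero, zero_mul, add_zero, Finset.sum_const_zero]
    refine Finset.sum_congr rfl fun i _ => ?_
    rw [Finset.sum_range_succ]
    simp only [hm, Int.cast_zero, zero_mul, add_zero]
    rw [Finset.mul_sum]
    refine Finset.sum_congr rfl fun j _ => ?_
    ring
  have e5 : ∀ i j : ℕ, (ss D2 R i j : ℝ) * a ^ i * b ^ j =
      (((if i = 0 ∧ j = 0 then D2 else 0 : ℤ)) : ℝ) * a ^ i * b ^ j -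
      2 * ((ent R i j : ℝ) * a ^ i * b ^ j) -
      (((if j = 0 then 0 else ent R i (j - 1) : ℤ)) : ℝ) * a ^ i * b ^ j +
      (((if i = 0 then 0 else ent R (i - 1) j : ℤ)) : ℝ) * a ^ i * b ^ j := by
    intro i j
    unfold ss
    rw [Int.cast_add, Int.cast_sub, Int.cast_sub, Int.cast_mul]
    push_cast
    ring
  simp_rw [e5, Finset.sum_add_distrib, Finset.sum_sub_distrib]
  rw [e1, e3, e4]
  simp_rw [← Finset.mul_sum]
  rw [e2]
  ring

/-- The final check: the table `S` of coefficients is nonnegative on `[-1, 1]²`. -/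
theorem nonneg_of_chk {N M : ℕ} {S : List (List ℤ)} {U : List (List ℕ)} {z : List ℤ} {zn b0 : List ℕ}
    {k : ℕ} {t : Tr} (hb0 : bin N = b0) (hS : shp (N + 1) (N + 1) S = true) (hz0 : ∀ X Y, HZ z X Y = 0)
    (hz : z.length = N + 1) (hzn0 : ∀ X Y, HN zn X Y = 0) (hzn : zn.length = N + 1)
    (hcmp : cmp2 M b0 (conv2 fm z S) b0 U = true)
    (hchk : chk2 (2 ^ N) b0 k (2 ^ N) b0 zn t M U = true)
    {a b : ℝ} (ha : a ∈ Set.Icc (-1 : ℝ) 1) (hb : b ∈ Set.Icc (-1 : ℝ) 1) : 0 ≤ EV2 S a b := by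
  subst hb0
  obtain ⟨hS1, hS2⟩ := shp_sound hS
  have h1 := conv2_spec (f := fm) (α := 1) (β := -1) (fun a b => by simp only [fm]; push_cast; ring)
    (z := z) hz0 (S := S) (fun r hr => (hS2 r hr).trans hz.symm) (X := (1 + a) / 2)
    (Y := (1 - a) / 2) (s := (1 + b) / 2) (t := (1 - b) / 2) (by ring) (by ring)
  obtain ⟨h2, h3, h4⟩ := h1
  have h5 := cmp2_sound hcmp (by rw [h2, hS1, length_bin])
    (fun r hr => by rw [h3 r hr, hz, length_bin]) ((1 + a) / 2) ((1 - a) / 2) ((1 + b) / 2)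
    ((1 - b) / 2)
  obtain ⟨h6, h7, h8⟩ := h5
  have h9 := chk2_sound (fun X Y => HN_bin N X Y) (fun X Y => HN_bin N X Y) hzn0
    (fun u hu => by rw [h7 u hu, hzn, length_bin]) hchk (X := (1 + a) / 2) (Y := (1 - a) / 2)
    (S := (1 + b) / 2) (T := (1 - b) / 2) (by linarith [ha.1]) (by linarith [ha.2])
    (by linarith [hb.1]) (by linarith [hb.2])
  rw [← h8, HN_bin, HN_bin] at h9
  have e1 : (1 + a) / 2 + (1 - a) / 2 = 1 := by ring
  have e2 : (1 + b) / 2 + (1 - b) / 2 = 1 := by ring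
  rw [e1, e2, one_pow] at h9
  rw [h4] at h9
  have e3 : 1 * ((1 + a) / 2) + -1 * ((1 - a) / 2) = a := by ring
  have e4 : 1 * ((1 + b) / 2) + -1 * ((1 - b) / 2) = b := by ring
  rw [e3, e4] at h9
  linarith

/-- The same on `[0, 1]²` (`a = X`, `b = S`). -/
theorem nonneg_of_chk' {N M : ℕ} {S : List (List ℤ)} {U : List (List ℕ)} {z : List ℤ} {zn b0 : List ℕ}
    {k : ℕ} {t : Tr} (hb0 : bin N = b0) (hS : shp (N + 1) (N + 1) S = true) (hz0 : ∀ X Y, HZ z X Y = 0)
    (hz : z.length = N + 1) (hzn0 : ∀ X Y, HN zn X Y = 0) (hzn : zn.length = N + 1)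
    (hcmp : cmp2 M b0 (conv2 fx z S) b0 U = true)
    (hchk : chk2 (2 ^ N) b0 k (2 ^ N) b0 zn t M U = true)
    {a b : ℝ} (ha : a ∈ Set.Icc (0 : ℝ) 1) (hb : b ∈ Set.Icc (0 : ℝ) 1) : 0 ≤ EV2 S a b := by
  subst hb0
  obtain ⟨hS1, hS2⟩ := shp_sound hS
  have h1 := conv2_spec (f := fx) (α := 1) (β := 0) (fun a b => by simp only [fx]; ring)
    (z := z) hz0 (S := S) (fun r hr => (hS2 r hr).trans hz.symm) (X := a)
    (Y := 1 - a) (s := b) (t := 1 - b) (by ring) (by ring)
  obtain ⟨h2, h3, h4⟩ := h1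
  have h5 := cmp2_sound hcmp (by rw [h2, hS1, length_bin])
    (fun r hr => by rw [h3 r hr, hz, length_bin]) a (1 - a) b (1 - b)
  obtain ⟨h6, h7, h8⟩ := h5
  have h9 := chk2_sound (fun X Y => HN_bin N X Y) (fun X Y => HN_bin N X Y) hzn0
    (fun u hu => by rw [h7 u hu, hzn, length_bin]) hchk (X := a) (Y := 1 - a)
    (S := b) (T := 1 - b) ha.1 (by linarith [ha.2]) hb.1 (by linarith [hb.2])
  rw [← h8, HN_bin, HN_bin] at h9
  have e1 : a + (1 - a) = 1 := by ring
  have e2 : b + (1 - b) = 1 := by ring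
  rw [e1, e2, one_pow] at h9
  rw [h4] at h9
  have e3 : 1 * a + 0 * (1 - a) = a := by ring
  have e4 : 1 * b + 0 * (1 - b) = b := by ring
  rw [e3, e4] at h9
  linarith

/-- splitting the check at a node of the tree -/
lemma chk2_node {q k Q M : ℕ} {c b z : List ℕ} {t1 t2 : Tr} {L : List (List ℕ)}
    (h1 : chk2 q c k Q b z t1 (Nat.mul Q M) (TL (vz Nat.add) (vz f2) z L) = true)
    (h2 : chk2 q c k Q b z t2 (Nat.mul Q M) (TR (vz Nat.add) (vz f2) z L) = true) :
    chk2 q c k Q b z (Tr.node t1 t2) M L = true := by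
  show cond (chk2 q c k Q b z t1 (Nat.mul Q M) (TL (vz Nat.add) (vz f2) z L))
    (chk2 q c k Q b z t2 (Nat.mul Q M) (TR (vz Nat.add) (vz f2) z L)) false = true
  rw [h1, h2]
  rfl

lemma HZ_replicate (n : ℕ) (X Y : ℝ) : HZ (List.replicate n 0) X Y = 0 := by
  induction n with
  | zero => rfl
  | succ n ih =>
    unfold HZ at ih ⊢
    rw [List.replicate_succ, HV_cons, ih]; simp

lemma HN_replicate (n : ℕ) (X Y : ℝ) : HN (List.replicate n 0) X Y = 0 := by
  induction n with
  | zero => rfl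
  | succ n ih =>
    unfold HN at ih ⊢
    rw [List.replicate_succ, HV_cons, ih]; simp

end Pool.Agent.Helper52.Chess
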